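import Pool.Agent.Work.MP_e0c7e8_nt.Sm.Prime

set_option autoImplicit false

namespace Pool.Agent.Work.MP_e0c7e8_nt.Sm

open Finset

/-- product of Jacobi symbols along the shifts -/
noncomputable def G (q : ℕ) (L : List ℤ) (n : ℤ) : ℝ :=
  (L.map fun a : ℤ => ((jacobiSym (n + a) q : ℤ) : ℝ)).prod

theorem jac_abs (n : ℤ) (q : ℕ) : |((jacobiSym n q : ℤ) : ℝ)| ≤ 1 := by
  rcases jacobiSym.trichotomy n q with h | h | h <;> rw [h] <;> norm_num

theorem G_abs (q : ℕ) (L : List ℤ) (n : ℤ) : |G q L n| ≤ 1 := by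
  unfold G
  induction L with
  | nil => simp
  | cons a L ih =>
    rw [List.map_cons, List.prod_cons, abs_mul]
    calc _ ≤ (1 : ℝ) * 1 := mul_le_mul (jac_abs _ _) ih (abs_nonneg _) zero_le_one
      _ = 1 := one_mul 1

theorem G_congr (q : ℕ) (L : List ℤ) (m n : ℤ) (h : m % q = n % q) : G q L m = G q L n := by
  unfold G
  congr 1
  apply List.map_congr_left
  intro a _
  have : (m + a) % q = (n + a) % q := Int.ModEq.add_right a h
  rw [jacobiSym.mod_left' this]

theorem G_per (q : ℕ) (L : List ℤ) (n : ℤ) : G q L (n + q) = G q L n :=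
  G_congr q L _ _ (by simp)

theorem G_mul (q r : ℕ) (hq : q ≠ 0) (hr : r ≠ 0) (L : List ℤ) (n : ℤ) :
    G (q * r) L n = G q L n * G r L n := by
  have : NeZero q := ⟨hq⟩
  have : NeZero r := ⟨hr⟩
  unfold G
  induction L with
  | nil => simp
  | cons a L ih =>
    rw [List.map_cons, List.prod_cons, List.map_cons, List.prod_cons, List.map_cons, List.prod_cons,
      ih, jacobiSym.mul_right]
    push_cast
    ring

theorem G_append (q : ℕ) (L L' : List ℤ) (n : ℤ) : G q (L ++ L') n = G q L n * G q L' n := by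
  unfold G
  rw [List.map_append, List.prod_append]

theorem G_shift (q : ℕ) (L : List ℤ) (c n : ℤ) : G q (L.map (· + c)) n = G q L (n + c) := by
  unfold G
  rw [List.map_map]
  congr 1
  apply List.map_congr_left
  intro a _
  simp only [Function.comp_apply]
  rw [show n + (a + c) = n + c + a by ring]

theorem G_one (L : List ℤ) (n : ℤ) : G 1 L n = 1 := by
  unfold G
  induction L with
  | nil => simp
  | cons a L ih =>
    rw [List.map_cons, List.prod_cons, ih, jacobiSym.one_right]
    simp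

/-- the function `G` on residue classes -/
noncomputable def gz (q : ℕ) (L : List ℤ) (z : ZMod q) : ℝ := G q L (z.cast : ℤ)

theorem gz_intCast (q : ℕ) (L : List ℤ) (n : ℤ) : gz q L (n : ZMod q) = G q L n := by
  unfold gz
  apply G_congr
  rw [ZMod.coe_intCast, Int.emod_emod_of_dvd _ (dvd_refl _)]

/-- complete sum -/
noncomputable def CS (q : ℕ) [NeZero q] (L : List ℤ) : ℝ := ∑ z : ZMod q, gz q L z

theorem CS_mul (q r : ℕ) [NeZero q] [NeZero r] (h : q.Coprime r) (L : List ℤ) :
    CS (q * r) L = CS q L * CS r L := by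
  unfold CS
  have h1 : ∀ z : ZMod (q * r), gz (q * r) L z =
      (fun w : ZMod q × ZMod r => gz q L w.1 * gz r L w.2) ((ZMod.chineseRemainder h).toEquiv z) := by
    intro z
    obtain ⟨n, rfl⟩ := ZMod.intCast_surjective z
    have h2 : (ZMod.chineseRemainder h).toEquiv ((n : ℤ) : ZMod (q * r)) =
        (((n : ℤ) : ZMod q × ZMod r)) := by
      exact map_intCast (ZMod.chineseRemainder h) n
    rw [h2]
    dsimp only
    rw [Prod.fst_intCast, Prod.snd_intCast, gz_intCast, gz_intCast, gz_intCast,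
      G_mul q r (NeZero.ne q) (NeZero.ne r)]
  calc ∑ z : ZMod (q * r), gz (q * r) L z = ∑ z : ZMod (q * r),
        (fun w : ZMod q × ZMod r => gz q L w.1 * gz r L w.2)
          ((ZMod.chineseRemainder h).toEquiv z) := Finset.sum_congr rfl fun z _ => h1 z
    _ = ∑ w : ZMod q × ZMod r, gz q L w.1 * gz r L w.2 :=
        Equiv.sum_comp (ZMod.chineseRemainder h).toEquiv
          (fun w : ZMod q × ZMod r => gz q L w.1 * gz r L w.2)
    _ = _ := by rw [Fintype.sum_prod_type, Finset.sum_mul_sum]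

theorem CS_one (L : List ℤ) : CS 1 L = 1 := by
  unfold CS gz
  simp [G_one]

open Classical in
/-- the degenerate part of `q` -/
noncomputable def Dg (q : ℕ) (L : List ℤ) : ℝ :=
  ∏ p ∈ q.primeFactors, if dg p L then (p : ℝ) else 1

theorem CS_prime (p : ℕ) [Fact p.Prime] (hp2 : p ≠ 2) (L : List ℤ) (hL : 1 ≤ L.length) :
    |CS p L| ≤ L.length * Real.sqrt (p * Dg p L) := by
  classical
  have hp := (Fact.out : p.Prime)
  have h1 : CS p L = ∑ z : ZMod p, gp p L z := by
    unfold CS
    refine Finset.sum_congr rfl fun z _ => ?_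
    obtain ⟨n, rfl⟩ := ZMod.intCast_surjective z
    rw [gz_intCast]
    unfold G gp ch
    congr 1
    apply List.map_congr_left
    intro a _
    rw [← jacobiSym.legendreSym.to_jacobiSym, legendreSym]
    push_cast
    rfl
  have hD : Dg p L = if dg p L then (p : ℝ) else 1 := by
    unfold Dg
    rw [hp.primeFactors, Finset.prod_singleton]
  rw [hD]
  split_ifs with hd
  · rw [Real.sqrt_mul_self (Nat.cast_nonneg p)]
    unfold CS
    have h2 : |∑ z : ZMod p, gz p L z| ≤ ∑ _z : ZMod p, (1 : ℝ) :=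
      (Finset.abs_sum_le_sum_abs _ _).trans (Finset.sum_le_sum fun z _ => G_abs _ _ _)
    rw [Finset.sum_const, Finset.card_univ, ZMod.card, nsmul_eq_mul, mul_one] at h2
    have h3 : (1 : ℝ) ≤ L.length := by exact_mod_cast hL
    have h4 : (0 : ℝ) ≤ p := Nat.cast_nonneg p
    nlinarith
  · rw [mul_one, h1]
    exact prime_bound p hp2 L hd

theorem Dg_nonneg (q : ℕ) (L : List ℤ) : 0 ≤ Dg q L := by
  unfold Dg
  refine Finset.prod_nonneg fun p _ => ?_
  split_ifs
  · exact Nat.cast_nonneg p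
  · exact zero_le_one

theorem Dg_mul (q r : ℕ) (h : q.Coprime r) (L : List ℤ) : Dg (q * r) L = Dg q L * Dg r L := by
  classical
  unfold Dg
  rw [h.primeFactors_mul, Finset.prod_union h.disjoint_primeFactors]

theorem CS_bound (L : List ℤ) (hL : 1 ≤ L.length) (q : ℕ) : ∀ (_ : NeZero q), Squarefree q → Odd q →
    |CS q L| ≤ (L.length : ℝ) ^ q.primeFactors.card * Real.sqrt (q * Dg q L) := by
  classical
  induction q using Nat.recOnMul with
  | zero => intro h; exact absurd rfl (NeZero.ne 0)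
  | one =>
    intro _ _ _
    rw [CS_one]
    simp [Dg]
  | prime p hp =>
    intro _ _ ho
    have : Fact p.Prime := ⟨hp⟩
    rw [hp.primeFactors, Finset.card_singleton, pow_one]
    refine le_trans (le_of_eq ?_) (CS_prime p (by rintro rfl; exact absurd ho (by decide)) L hL)
    congr
  | mul a b iha ihb =>
    intro hne hsq ho
    have ha : NeZero a := ⟨fun h => by rw [h, zero_mul] at hsq; exact not_squarefree_zero hsq⟩
    have hb : NeZero b := ⟨fun h => by rw [h, mul_zero] at hsq; exact not_squarefree_zero hsq⟩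
    obtain ⟨hcop, hsa, hsb⟩ := (Nat.squarefree_mul_iff).1 hsq
    obtain ⟨hoa, hob⟩ := Nat.odd_mul.1 ho
    have h1 : CS (a * b) L = CS a L * CS b L := by
      rw [← CS_mul a b hcop L]
    rw [h1, abs_mul, Dg_mul a b hcop, hcop.primeFactors_mul,
      Finset.card_union_of_disjoint hcop.disjoint_primeFactors, pow_add]
    have h2 := iha ha hsa hoa
    have h3 := ihb hb hsb hob
    have h4 : Real.sqrt ((a * b : ℕ) * (Dg a L * Dg b L)) =
        Real.sqrt (a * Dg a L) * Real.sqrt (b * Dg b L) := by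
      rw [← Real.sqrt_mul (mul_nonneg (Nat.cast_nonneg a) (Dg_nonneg a L))]
      congr 1
      push_cast
      ring
    rw [h4]
    calc |CS a L| * |CS b L| ≤ ((L.length : ℝ) ^ a.primeFactors.card * Real.sqrt (a * Dg a L)) *
          ((L.length : ℝ) ^ b.primeFactors.card * Real.sqrt (b * Dg b L)) :=
        mul_le_mul h2 h3 (abs_nonneg _) (by positivity)
      _ = _ := by ring

/-- sum over one period -/
theorem sum_period (q : ℕ) [NeZero q] (F : ZMod q → ℝ) (a : ℤ) :
    ∑ n ∈ Ico a (a + q), F (n : ZMod q) = ∑ z, F z := by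
  have hq : 0 < q := Nat.pos_of_ne_zero (NeZero.ne q)
  refine Finset.sum_nbij' (fun n => (n : ZMod q)) (fun z => a + ((z - a : ZMod q).val : ℤ))
    ?_ ?_ ?_ ?_ ?_
  · intro n _; exact Finset.mem_univ _
  · intro z _
    have := ZMod.val_lt (z - a : ZMod q)
    rw [Finset.mem_Ico]
    constructor <;> omega
  · intro n hn
    rw [Finset.mem_Ico] at hn
    have h1 : ((n : ZMod q) - (a : ZMod q)) = (((n - a).toNat : ℕ) : ZMod q) := by
      have : (((n - a).toNat : ℤ) : ZMod q) = ((n - a : ℤ) : ZMod q) := by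
        rw [Int.toNat_of_nonneg (by omega)]
      rw [Int.cast_natCast] at this
      rw [this]
      push_cast
      ring
    rw [h1, ZMod.val_natCast_of_lt (by omega), Int.toNat_of_nonneg (by omega)]
    ring
  · intro z _
    push_cast
    rw [ZMod.natCast_zmod_val]
    ring
  · intro n _; rfl

/-- incomplete sums of periodic functions -/
theorem sum_incomplete (q : ℕ) [NeZero q] (F : ZMod q → ℝ) (hF : ∀ z, |F z| ≤ 1) (k : ℕ) :
    ∀ (a b : ℤ), b - a < (k + 1) * q →
    |∑ n ∈ Ico a b, F (n : ZMod q)| ≤ k * |∑ z, F z| + q := by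
  induction k with
  | zero =>
    intro a b hab
    have h1 : |∑ n ∈ Ico a b, F (n : ZMod q)| ≤ ∑ _n ∈ Ico a b, (1 : ℝ) :=
      (Finset.abs_sum_le_sum_abs _ _).trans (Finset.sum_le_sum fun z _ => hF _)
    rw [Finset.sum_const, Int.card_Ico, nsmul_eq_mul, mul_one] at h1
    refine h1.trans ?_
    have h2 : (b - a).toNat ≤ q := by
      have : b - a < q := by simpa using hab
      omega
    have h3 : ((b - a).toNat : ℝ) ≤ q := by exact_mod_cast h2
    simpa using h3
  | succ k ih =>
    intro a b hab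
    by_cases hs : b - a < q
    · have h1 : |∑ n ∈ Ico a b, F (n : ZMod q)| ≤ ∑ _n ∈ Ico a b, (1 : ℝ) :=
        (Finset.abs_sum_le_sum_abs _ _).trans (Finset.sum_le_sum fun z _ => hF _)
      rw [Finset.sum_const, Int.card_Ico, nsmul_eq_mul, mul_one] at h1
      refine h1.trans ?_
      have h3 : ((b - a).toNat : ℝ) ≤ q := by exact_mod_cast (by omega : (b - a).toNat ≤ q)
      have h4 : 0 ≤ ((k + 1 : ℕ) : ℝ) * |∑ z, F z| := by positivity
      linarith
    · push Not at hs
      have h1 : ∑ n ∈ Ico a b, F (n : ZMod q) = ∑ n ∈ Ico a (a + q), F (n : ZMod q) +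
          ∑ n ∈ Ico (a + q) b, F (n : ZMod q) := by
        rw [← Finset.sum_union (Finset.Ico_disjoint_Ico_consecutive _ _ _),
          Finset.Ico_union_Ico_eq_Ico (by omega) (by omega)]
      rw [h1, sum_period]
      refine (abs_add_le _ _).trans ?_
      have h2 := ih (a + q) b (by push_cast at hab; nlinarith)
      push_cast
      linarith

/-- base case: incomplete sums -/
theorem base (q : ℕ) (hsq : Squarefree q) (ho : Odd q) (L : List ℤ) (hL : 1 ≤ L.length) (N : ℕ)
    (a b : ℤ) (hab : b - a ≤ N) :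
    |∑ n ∈ Ico a b, G q L n| ≤
      N * ((L.length : ℝ) ^ q.primeFactors.card * Real.sqrt (Dg q L / q)) + q := by
  have : NeZero q := ⟨hsq.ne_zero⟩
  have hq : (0 : ℝ) < q := by exact_mod_cast Nat.pos_of_ne_zero hsq.ne_zero
  have h1 := sum_incomplete q (gz q L) (fun z => G_abs _ _ _) (N / q) a b (by
    have h0 : N < (N / q + 1) * q := by
      rw [mul_comm]
      exact Nat.lt_mul_div_succ N (Nat.pos_of_ne_zero hsq.ne_zero)
    have h0' : (N : ℤ) < ((N / q : ℕ) + 1) * q := by exact_mod_cast h0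
    exact lt_of_le_of_lt hab h0')
  simp only [gz_intCast] at h1
  refine h1.trans (add_le_add ?_ le_rfl)
  have h2 := CS_bound L hL q inferInstance hsq ho
  unfold CS at h2
  have h3 : ((N / q : ℕ) : ℝ) ≤ N / q := Nat.cast_div_le
  calc ((N / q : ℕ) : ℝ) * |∑ z, gz q L z|
      ≤ (N / q) * ((L.length : ℝ) ^ q.primeFactors.card * Real.sqrt (q * Dg q L)) :=
        mul_le_mul h3 h2 (abs_nonneg _) (by positivity)
    _ = N * ((L.length : ℝ) ^ q.primeFactors.card * (Real.sqrt (q * Dg q L) / q)) := by ring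
    _ = N * ((L.length : ℝ) ^ q.primeFactors.card * Real.sqrt (Dg q L / q)) := by
        congr 2
        rw [Real.sqrt_mul hq.le, Real.sqrt_div' _ hq.le]
        have := Real.mul_self_sqrt hq.le
        field_simp
        rw [Real.sq_sqrt hq.le]
        ring

theorem Dg_shift (Q : ℕ) (hsq : Squarefree Q) (ho : Odd Q) (L : List ℤ) (s j : ℕ) (hj : 1 ≤ j)
    (hs : Q.Coprime s) :
    Dg Q (L ++ L.map (· + (j * s : ℤ))) ≤ Dg Q L * (Nat.gcd Q j : ℕ) := by
  classical
  have h1 : Dg Q (L ++ L.map (· + (j * s : ℤ))) ≤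
      ∏ p ∈ Q.primeFactors, ((if dg p L then (p : ℝ) else 1) * if p ∣ j then (p : ℝ) else 1) := by
    unfold Dg
    refine Finset.prod_le_prod (fun p _ => ?_) fun p hp => ?_
    · split_ifs
      · exact Nat.cast_nonneg p
      · exact zero_le_one
    · have hpp := Nat.prime_of_mem_primeFactors hp
      have hpQ := Nat.dvd_of_mem_primeFactors hp
      have : Fact p.Prime := ⟨hpp⟩
      have h1 : (1 : ℝ) ≤ p := by exact_mod_cast hpp.one_lt.le
      by_cases hL : dg p L
      · rw [if_pos hL]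
        have h2 : (1 : ℝ) ≤ if p ∣ j then (p : ℝ) else 1 := by split_ifs <;> linarith
        have h3 : (if dg p (L ++ L.map (· + (j * s : ℤ))) then (p : ℝ) else 1) ≤ p := by
          split_ifs <;> linarith
        nlinarith
      · by_cases hd : p ∣ j
        · rw [if_pos hd, if_neg hL, one_mul]
          split_ifs <;> linarith
        · rw [if_neg hd, if_neg hL, if_neg]
          · norm_num
          · apply not_dg_shift p _ L hL
            · push_cast
              have h4 : ((j : ℕ) : ZMod p) ≠ 0 := by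
                rwa [Ne, ZMod.natCast_eq_zero_iff]
              have h5 : ((s : ℕ) : ZMod p) ≠ 0 := by
                rw [Ne, ZMod.natCast_eq_zero_iff]
                intro h6
                exact hpp.one_lt.ne' (Nat.dvd_one.1 (hs ▸ Nat.dvd_gcd hpQ h6))
              exact mul_ne_zero h4 h5
            · rintro rfl
              exact absurd (ho.of_dvd_nat hpQ) (by decide)
  refine h1.trans ?_
  rw [Finset.prod_mul_distrib]
  refine mul_le_mul_of_nonneg_left ?_ (Dg_nonneg Q L)
  rw [← Finset.prod_filter]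
  have h2 : (Q.primeFactors.filter fun p => p ∣ j) = (Nat.gcd Q j).primeFactors := by
    rw [Nat.primeFactors_gcd hsq.ne_zero (by omega)]
    ext p
    rw [Finset.mem_filter, Finset.mem_inter, Nat.mem_primeFactors, Nat.mem_primeFactors]
    constructor
    · rintro ⟨⟨a, b, c⟩, d⟩
      exact ⟨⟨a, b, c⟩, a, d, by omega⟩
    · rintro ⟨⟨a, b, c⟩, _, d, _⟩
      exact ⟨⟨a, b, c⟩, d⟩
  rw [h2]
  have h3 : ∏ p ∈ (Nat.gcd Q j).primeFactors, p ≤ Nat.gcd Q j :=
    Nat.le_of_dvd (Nat.gcd_pos_of_pos_right _ (by omega)) (Nat.prod_primeFactors_dvd _)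
  have h4 : ((∏ p ∈ (Nat.gcd Q j).primeFactors, p : ℕ) : ℝ) ≤ (Nat.gcd Q j : ℕ) := by
    exact_mod_cast h3
  refine le_trans (le_of_eq ?_) h4
  push_cast
  rfl

theorem sum_gcd (Q H : ℕ) (hQ : Q ≠ 0) :
    ∑ j ∈ Ico 1 H, ((Nat.gcd Q j : ℕ) : ℝ) ≤ H * (Q.divisors.card : ℝ) := by
  have h1 : ∀ j ∈ Ico 1 H, ((Nat.gcd Q j : ℕ) : ℝ) ≤
      ∑ d ∈ Q.divisors, if d ∣ j then (d : ℝ) else 0 := by
    intro j _
    have h2 : (if Nat.gcd Q j ∣ j then ((Nat.gcd Q j : ℕ) : ℝ) else 0) ≤
        ∑ d ∈ Q.divisors, if d ∣ j then (d : ℝ) else 0 :=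
      Finset.single_le_sum (f := fun d => if d ∣ j then (d : ℝ) else 0)
        (fun i _ => by split_ifs <;> positivity)
        (Nat.mem_divisors.2 ⟨Nat.gcd_dvd_left Q j, hQ⟩)
    rwa [if_pos (Nat.gcd_dvd_right Q j)] at h2
  refine (Finset.sum_le_sum h1).trans ?_
  rw [Finset.sum_comm]
  have h3 : ∀ d ∈ Q.divisors, (∑ j ∈ Ico 1 H, if d ∣ j then (d : ℝ) else 0) ≤ H := by
    intro d hd
    have hd0 : 0 < d := Nat.pos_of_mem_divisors hd
    rw [← Finset.sum_filter, Finset.sum_const, nsmul_eq_mul]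
    have h4 : ((Ico 1 H).filter fun j => d ∣ j).card ≤ H / d := by
      rw [← Nat.Ioc_filter_dvd_card_eq_div]
      apply Finset.card_le_card
      intro j hj
      rw [Finset.mem_filter, Finset.mem_Ico] at hj
      rw [Finset.mem_filter, Finset.mem_Ioc]
      exact ⟨⟨by omega, by omega⟩, hj.2⟩
    have h5 : ((Ico 1 H).filter fun j => d ∣ j).card * d ≤ H :=
      (Nat.mul_le_mul_right d h4).trans (Nat.div_mul_le_self H d)
    exact_mod_cast h5
  refine (Finset.sum_le_sum h3).trans ?_
  rw [Finset.sum_const, nsmul_eq_mul, mul_comm]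

end Pool.Agent.Work.MP_e0c7e8_nt.Sm
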