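import Mathlib

/-!
# The arithmetic function `∑_{a ∣ n} (d / a)`
-/

set_option autoImplicit false

namespace Pool.Agent.Work.MP_e0c7e8_nt.Sm

open Finset

/-- the Jacobi symbol as an arithmetic function -/
def chiA (d : ℤ) : ArithmeticFunction ℤ := ⟨fun n => if n = 0 then 0 else jacobiSym d n, by simp⟩

theorem chiA_apply (d : ℤ) {n : ℕ} (hn : n ≠ 0) : chiA d n = jacobiSym d n := if_neg hn

theorem chiA_mult (d : ℤ) : (chiA d).IsMultiplicative := by
  rw [ArithmeticFunction.IsMultiplicative.iff_ne_zero]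
  constructor
  · rw [chiA_apply d one_ne_zero, jacobiSym.one_right]
  · intro m n hm hn _
    have : NeZero m := ⟨hm⟩
    have : NeZero n := ⟨hn⟩
    rw [chiA_apply d hm, chiA_apply d hn, chiA_apply d (mul_ne_zero hm hn), jacobiSym.mul_right]

/-- sum of the Jacobi symbols over the divisors -/
def rr (d : ℤ) (n : ℕ) : ℤ := ∑ a ∈ n.divisors, jacobiSym d a

theorem rr_eq (d : ℤ) (n : ℕ) :
    rr d n = (chiA d * (ArithmeticFunction.zeta : ArithmeticFunction ℤ)) n := by
  rw [ArithmeticFunction.coe_mul_zeta_apply]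
  unfold rr
  refine Finset.sum_congr rfl fun a ha => ?_
  rw [chiA_apply d (Nat.pos_of_mem_divisors ha).ne']

theorem rr_mul (d : ℤ) (m n : ℕ) (h : m.Coprime n) : rr d (m * n) = rr d m * rr d n := by
  rw [rr_eq, rr_eq, rr_eq]
  exact ((chiA_mult d).mul ArithmeticFunction.isMultiplicative_zeta.natCast).map_mul_of_coprime h

theorem rr_one (d : ℤ) : rr d 1 = 1 := by
  unfold rr
  simp

theorem rr_prime_pow (d : ℤ) (p : ℕ) (hp : p.Prime) (e : ℕ) :
    rr d (p ^ e) = ∑ i ∈ range (e + 1), (jacobiSym d p) ^ i := by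
  unfold rr
  rw [Nat.sum_divisors_prime_pow hp]
  refine Finset.sum_congr rfl fun i _ => ?_
  rw [jacobiSym.pow_right]

theorem rr_abs (d : ℤ) (n : ℕ) : |((rr d n : ℤ) : ℝ)| ≤ n.divisors.card := by
  unfold rr
  push_cast
  refine (Finset.abs_sum_le_sum_abs _ _).trans ?_
  rw [← nsmul_one, ← Finset.sum_const]
  refine Finset.sum_le_sum fun a _ => ?_
  rcases jacobiSym.trichotomy d a with h | h | h <;> rw [h] <;> norm_num

theorem rr_eq_zero (d : ℤ) (n p : ℕ) (hn : n ≠ 0) (hp : p.Prime)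
    (ho : Odd (n.factorization p)) (hc : jacobiSym d p = -1) : rr d n = 0 := by
  have h1 : n = p ^ n.factorization p * (n / p ^ n.factorization p) :=
    (Nat.ordProj_mul_ordCompl_eq_self n p).symm
  have hcop : (p ^ n.factorization p).Coprime (n / p ^ n.factorization p) :=
    Nat.Coprime.pow_left _ (Nat.coprime_ordCompl hp hn)
  rw [h1, rr_mul d _ _ hcop, rr_prime_pow d p hp, hc, neg_one_geom_sum, if_pos, zero_mul]
  exact ho.add_one

/-- `squarefree` products of primes with symbol `1` -/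
def IsT (d : ℤ) (t : ℕ) : Prop :=
  Squarefree t ∧ Odd t ∧ ∀ p : ℕ, p.Prime → p ∣ t → jacobiSym d p = 1

theorem structure_of_ne_zero (d : ℤ) (n : ℕ) (hn : Odd n) (h : rr d n ≠ 0) :
    ∃ e t m : ℕ, e ∣ d.natAbs ∧ IsT d t ∧ 1 ≤ m ∧ n = e * t * m ^ 2 := by
  have hn0 : n ≠ 0 := hn.pos.ne'
  obtain ⟨s, m, hms, hs⟩ := Nat.sq_mul_squarefree n
  have hs0 : s ≠ 0 := hs.ne_zero
  have hm0 : m ≠ 0 := by rintro rfl; simp at hms; exact hn0 hms.symm
  have hdvd : Nat.gcd s d.natAbs ∣ s := Nat.gcd_dvd_left _ _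
  obtain ⟨t, ht⟩ := hdvd
  refine ⟨Nat.gcd s d.natAbs, t, m, Nat.gcd_dvd_right _ _, ⟨?_, ?_, ?_⟩, Nat.pos_of_ne_zero hm0, ?_⟩
  · exact hs.squarefree_of_dvd (Dvd.intro_left _ ht.symm)
  · exact (hn.of_dvd_nat (Dvd.intro_left _ hms)).of_dvd_nat (Dvd.intro_left _ ht.symm)
  · intro p hp hpt
    have hps : p ∣ s := hpt.trans (Dvd.intro_left _ ht.symm)
    have hpd : ¬ p ∣ d.natAbs := by
      intro h1
      have h2 : p ∣ Nat.gcd s d.natAbs := Nat.dvd_gcd hps h1
      have h3 : p * p ∣ s := by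
        rw [ht]
        exact Nat.mul_dvd_mul h2 hpt
      exact hp.one_lt.ne' (Nat.isUnit_iff.1 (hs p h3))
    have hne : jacobiSym d p ≠ -1 := by
      intro hc
      apply h
      apply rr_eq_zero d n p hn0 hp _ hc
      rw [← hms, Nat.factorization_mul (pow_ne_zero 2 hm0) hs0, Nat.factorization_pow]
      have h4 : s.factorization p = 1 := by
        have h5 := (Nat.squarefree_iff_factorization_le_one hs0).1 hs p
        have h6 := hp.factorization_pos_of_dvd hs0 hps
        omega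
      simp only [Finsupp.coe_add, Finsupp.coe_smul, Pi.add_apply, Pi.smul_apply, smul_eq_mul, h4]
      exact ⟨m.factorization p, rfl⟩
    rcases jacobiSym.trichotomy d p with h1 | h1 | h1
    · exfalso
      have : NeZero p := ⟨hp.ne_zero⟩
      rw [jacobiSym.eq_zero_iff_not_coprime] at h1
      apply hpd
      have h2 := (Nat.coprime_or_dvd_of_prime hp d.natAbs)
      rcases h2 with h2 | h2
      · exfalso
        apply h1
        rw [Int.gcd_comm, Int.gcd_eq_natAbs, Int.natAbs_natCast]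
        exact h2
      · exact h2
    · exact h1
    · exact absurd h1 hne
  · rw [← hms, ← ht, mul_comm]

open Classical in
/-- the numbers `t ≤ x` -/
noncomputable def TT (d : ℤ) (x : ℕ) : Finset ℕ := (Icc 1 x).filter (IsT d)

open Classical in
theorem count_ne_zero (d : ℤ) (hd : d ≠ 0) (x M : ℕ) (hM : 1 ≤ M) :
    ((((Icc 1 x).filter fun n => Odd n ∧ rr d n ≠ 0).card : ℕ) : ℝ) ≤
      (TT d x).card * (d.natAbs.divisors.card : ℝ) * M + x / M := by
  have hMr : (0 : ℝ) < M := by exact_mod_cast hM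
  set S := (Icc 1 x).filter fun n => Odd n ∧ rr d n ≠ 0 with hS
  set S2 := (Ioc M x).biUnion fun m => (Ioc 0 x).filter fun n => m ^ 2 ∣ n with hS2
  set S1 := ((TT d x ×ˢ d.natAbs.divisors) ×ˢ Icc 1 M).image fun w => w.1.2 * w.1.1 * w.2 ^ 2
    with hS1
  have hsub : S ⊆ S1 ∪ S2 := by
    intro n hn
    rw [hS, Finset.mem_filter, Finset.mem_Icc] at hn
    obtain ⟨⟨hn1, hnx⟩, hno, hnr⟩ := hn
    obtain ⟨e, t, m, he, ht, hm, rfl⟩ := structure_of_ne_zero d n hno hnr
    have he0 : 1 ≤ e := by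
      rcases Nat.eq_zero_or_pos e with h | h
      · rw [h, zero_mul, zero_mul] at hn1; omega
      · exact h
    have ht0 : 1 ≤ t := by
      rcases Nat.eq_zero_or_pos t with h | h
      · rw [h, mul_zero, zero_mul] at hn1; omega
      · exact h
    rw [Finset.mem_union]
    by_cases hmM : m ≤ M
    · left
      rw [hS1, Finset.mem_image]
      refine ⟨((t, e), m), ?_, rfl⟩
      rw [Finset.mem_product, Finset.mem_product]
      refine ⟨⟨?_, ?_⟩, ?_⟩
      · unfold TT
        rw [Finset.mem_filter, Finset.mem_Icc]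
        refine ⟨⟨ht0, ?_⟩, ht⟩
        refine le_trans ?_ hnx
        have h1 : 1 ≤ m ^ 2 := Nat.one_le_pow _ _ hm
        calc t = 1 * t * 1 := by ring
          _ ≤ e * t * m ^ 2 := by gcongr
      · rw [Nat.mem_divisors]
        exact ⟨he, by rwa [Ne, Int.natAbs_eq_zero]⟩
      · rw [Finset.mem_Icc]
        exact ⟨hm, hmM⟩
    · right
      push Not at hmM
      rw [hS2, Finset.mem_biUnion]
      refine ⟨m, ?_, ?_⟩
      · rw [Finset.mem_Ioc]
        refine ⟨hmM, le_trans ?_ hnx⟩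
        have h1 : 1 ≤ e * t := Nat.mul_pos he0 ht0
        calc m = 1 * m := (one_mul m).symm
          _ ≤ (e * t) * m ^ 2 := by
            have : m ≤ m ^ 2 := Nat.le_self_pow two_ne_zero m
            exact Nat.mul_le_mul h1 this
      · rw [Finset.mem_filter, Finset.mem_Ioc]
        exact ⟨⟨by omega, hnx⟩, Dvd.intro_left _ rfl⟩
  have hc1 : S.card ≤ S1.card + S2.card := (Finset.card_le_card hsub).trans (Finset.card_union_le _ _)
  have hc2 : S1.card ≤ (TT d x).card * d.natAbs.divisors.card * M := by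
    refine Finset.card_image_le.trans ?_
    rw [Finset.card_product, Finset.card_product, Nat.card_Icc, Nat.add_sub_cancel]
  have hc3 : (S2.card : ℝ) ≤ x / M := by
    have h1 : S2.card ≤ ∑ m ∈ Ioc M x, x / m ^ 2 := by
      refine Finset.card_biUnion_le.trans (Finset.sum_le_sum fun m _ => ?_)
      rw [Nat.Ioc_filter_dvd_card_eq_div]
    have h2 : ((∑ m ∈ Ioc M x, x / m ^ 2 : ℕ) : ℝ) ≤ ∑ m ∈ Ioc M x, (x : ℝ) * (((m : ℝ) ^ 2)⁻¹) := by
      push_cast
      refine Finset.sum_le_sum fun m _ => ?_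
      refine (Nat.cast_div_le).trans (le_of_eq ?_)
      push_cast
      rw [div_eq_mul_inv]
    have h3 : ∑ m ∈ Ioc M x, (x : ℝ) * (((m : ℝ) ^ 2)⁻¹) ≤ x / M := by
      rw [← Finset.mul_sum, div_eq_mul_inv]
      refine mul_le_mul_of_nonneg_left ?_ (Nat.cast_nonneg x)
      by_cases hMx : M ≤ x
      · refine (sum_Ioc_inv_sq_le_sub (α := ℝ) (by omega) hMx).trans ?_
        have : (0 : ℝ) ≤ (x : ℝ)⁻¹ := by positivity
        linarith
      · rw [Finset.Ioc_eq_empty (by omega), Finset.sum_empty]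
        positivity
    exact_mod_cast (by exact_mod_cast h1 : (S2.card : ℝ) ≤ ((∑ m ∈ Ioc M x, x / m ^ 2 : ℕ) : ℝ)).trans
      (h2.trans h3)
  calc (S.card : ℝ) ≤ S1.card + S2.card := by exact_mod_cast hc1
    _ ≤ ((TT d x).card * d.natAbs.divisors.card * M : ℕ) + x / M := by
        gcongr
    _ = _ := by push_cast; ring

end Pool.Agent.Work.MP_e0c7e8_nt.Sm
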