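import Pool.Agent.Work.MP_e0c7e8_nt.Sm.FR

/-!
# The class number is bounded by sums of the character
-/

set_option autoImplicit false

namespace Pool.Agent.Work.MP_e0c7e8_nt.Sm

open NumberField Ideal

open scoped nonZeroDivisors

variable {K : Type} [Field K] [NumberField K]

theorem class_le (h2 : Module.finrank ℚ K = 2) :
    Nat.card (ClassGroup (𝓞 K)) ≤ ∑ n ∈ Finset.Icc 1 ⌊Real.sqrt |(discr K : ℝ)|⌋₊, fN K n := by
  classical
  set X := ⌊Real.sqrt |(discr K : ℝ)|⌋₊ with hX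
  have hex : ∀ C : ClassGroup (𝓞 K), ∃ I : (Ideal (𝓞 K))⁰, ClassGroup.mk0 I = C ∧
      absNorm (I : Ideal (𝓞 K)) ∈ Finset.Icc 1 X := by
    intro C
    obtain ⟨I, hI, hN⟩ := exists_ideal_in_class_of_norm_le C
    refine ⟨I, hI, ?_⟩
    rw [Finset.mem_Icc]
    constructor
    · rw [Nat.one_le_iff_ne_zero, Ne, absNorm_eq_zero_iff]
      exact mem_nonZeroDivisors_iff_ne_zero.1 I.2
    · rw [hX]
      apply Nat.le_floor
      refine hN.trans ?_
      have hc : InfinitePlace.nrComplexPlaces K ≤ 1 := by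
        have := InfinitePlace.card_add_two_mul_card_eq_rank K
        omega
      have hpi : (4 / Real.pi) ^ InfinitePlace.nrComplexPlaces K ≤ 2 := by
        have h3 : (1 : ℝ) ≤ 4 / Real.pi := by
          rw [one_le_div Real.pi_pos]
          exact Real.pi_le_four
        calc (4 / Real.pi) ^ InfinitePlace.nrComplexPlaces K ≤ (4 / Real.pi) ^ 1 :=
              pow_le_pow_right₀ h3 hc
          _ ≤ 2 := by
              rw [pow_one, div_le_iff₀ Real.pi_pos]
              have := Real.pi_gt_three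
              linarith
      rw [h2]
      have h4 : ((Nat.factorial 2 : ℕ) : ℝ) / ((2 : ℕ) : ℝ) ^ 2 = 1 / 2 := by
        norm_num [Nat.factorial]
      rw [h4]
      have h5 : 0 ≤ Real.sqrt |(discr K : ℝ)| := Real.sqrt_nonneg _
      nlinarith
  choose g hg1 hg2 using hex
  have hinj : Function.Injective (fun C => (g C : Ideal (𝓞 K))) := by
    intro C C' h
    have h1 : g C = g C' := Subtype.ext h
    rw [← hg1 C, ← hg1 C', h1]
  set B : Finset (Ideal (𝓞 K)) := (Finset.Icc 1 X).biUnion fun n => (fin_eq (K := K) n).toFinset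
    with hB
  have hmem : ∀ C, (g C : Ideal (𝓞 K)) ∈ B := by
    intro C
    rw [hB, Finset.mem_biUnion]
    exact ⟨_, hg2 C, by rw [Set.Finite.mem_toFinset]; rfl⟩
  have h1 : Nat.card (ClassGroup (𝓞 K)) ≤ B.card := by
    have h3 := Nat.card_le_card_of_injective (fun C : ClassGroup (𝓞 K) =>
      (⟨(g C : Ideal (𝓞 K)), hmem C⟩ : {I : Ideal (𝓞 K) // I ∈ B})) (by
        intro C C' h
        exact hinj (congrArg (fun w : {I : Ideal (𝓞 K) // I ∈ B} => (w : Ideal (𝓞 K))) h))
    rwa [Nat.card_eq_fintype_card (α := {I : Ideal (𝓞 K) // I ∈ B}), Fintype.card_coe] at h3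
  refine h1.trans (Finset.card_biUnion_le.trans (Finset.sum_le_sum fun n _ => ?_))
  unfold fN
  rw [Set.ncard_eq_toFinset_card _ (fin_eq n)]

/-- sums of `rr` over odd numbers -/
noncomputable def RR (d : ℤ) (y : ℕ) : ℝ :=
  ∑ m ∈ (Finset.Icc 1 y).filter fun m => Odd m, ((rr d m : ℤ) : ℝ)

theorem sum_fN_le (h2 : Module.finrank ℚ K = 2) (hd : discr K < 0) (X L : ℕ) (hL : X < 2 ^ L) :
    ∑ n ∈ Finset.Icc 1 X, (fN K n : ℝ) ≤
      ∑ j ∈ Finset.range L, ((j : ℝ) + 1) * RR (discr K) (X / 2 ^ j) := by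
  classical
  have hmaps : ∀ n ∈ Finset.Icc 1 X, n.factorization 2 ∈ Finset.range L := by
    intro n hn
    rw [Finset.mem_Icc] at hn
    rw [Finset.mem_range]
    have h1 : 2 ^ n.factorization 2 ≤ n := Nat.ordProj_le 2 (by omega)
    exact (Nat.pow_lt_pow_iff_right (by norm_num)).1 (lt_of_le_of_lt (h1.trans hn.2) hL)
  rw [← Finset.sum_fiberwise_of_maps_to hmaps]
  refine Finset.sum_le_sum fun j _ => ?_
  have hodd : ∀ n, n ≠ 0 → Odd (n / 2 ^ n.factorization 2) := by
    intro n hn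
    rw [← Nat.not_even_iff_odd, even_iff_two_dvd]
    exact Nat.not_dvd_ordCompl Nat.prime_two hn
  have hpt : ∀ n ∈ (Finset.Icc 1 X).filter (fun n => n.factorization 2 = j),
      (fN K n : ℝ) ≤ ((j : ℝ) + 1) * ((rr (discr K) (n / 2 ^ j) : ℤ) : ℝ) := by
    intro n hn
    rw [Finset.mem_filter, Finset.mem_Icc] at hn
    obtain ⟨⟨hn1, hnX⟩, hj⟩ := hn
    have ho := hodd n (by omega)
    rw [hj] at ho
    have h3 : 2 ^ j * (n / 2 ^ j) = n := by
      have := Nat.ordProj_mul_ordCompl_eq_self n 2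
      rwa [hj] at this
    have hcop : (2 ^ j).Coprime (n / 2 ^ j) := Nat.Coprime.pow_left _ (Nat.coprime_two_left.2 ho)
    have h4 := fN_mul h2 (2 ^ j) (n / 2 ^ j) hcop (by positivity) ho.pos
    rw [h3] at h4
    have h5 := fN_pow_le h2 2 Nat.prime_two j
    have h6 := fN_le_rr h2 hd (n / 2 ^ j) ho
    have h7 : (fN K (n / 2 ^ j) : ℝ) ≤ ((rr (discr K) (n / 2 ^ j) : ℤ) : ℝ) := by
      exact_mod_cast h6
    calc (fN K n : ℝ) ≤ (fN K (2 ^ j) : ℝ) * fN K (n / 2 ^ j) := by exact_mod_cast h4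
      _ ≤ ((j : ℝ) + 1) * ((rr (discr K) (n / 2 ^ j) : ℤ) : ℝ) := by
        refine mul_le_mul (by exact_mod_cast h5) h7 (Nat.cast_nonneg _) (by positivity)
  refine (Finset.sum_le_sum hpt).trans ?_
  rw [← Finset.mul_sum]
  refine mul_le_mul_of_nonneg_left ?_ (by positivity)
  unfold RR
  rw [← Finset.sum_image (f := fun m => ((rr (discr K) m : ℤ) : ℝ))
    (g := fun n : ℕ => n / 2 ^ j) (s := (Finset.Icc 1 X).filter (fun n => n.factorization 2 = j))]
  · apply Finset.sum_le_sum_of_subset_of_nonneg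
    · intro m hm
      rw [Finset.mem_image] at hm
      obtain ⟨n, hn, rfl⟩ := hm
      rw [Finset.mem_filter, Finset.mem_Icc] at hn
      have ho := hodd n (by omega)
      rw [hn.2] at ho
      rw [Finset.mem_filter, Finset.mem_Icc]
      exact ⟨⟨ho.pos, Nat.div_le_div_right hn.1.2⟩, ho⟩
    · intro m hm _
      rw [Finset.mem_filter] at hm
      have := (Int.natCast_nonneg _).trans (fN_le_rr h2 hd m hm.2)
      exact_mod_cast this
  · intro n hn m hm h
    rw [Finset.mem_coe, Finset.mem_filter] at hn hm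
    have h3 : 2 ^ j * (n / 2 ^ j) = n := by
      have := Nat.ordProj_mul_ordCompl_eq_self n 2
      rwa [hn.2] at this
    have h4 : 2 ^ j * (m / 2 ^ j) = m := by
      have := Nat.ordProj_mul_ordCompl_eq_self m 2
      rwa [hm.2] at this
    dsimp only at h
    rw [← h3, ← h4, h]

end Pool.Agent.Work.MP_e0c7e8_nt.Sm
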