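import Pool.Agent.Work.MP_e0c7e8_nt.Sm.Iter
import Pool.Agent.Work.MP_e0aece_nt.DivisorBound

set_option autoImplicit false

namespace Pool.Agent.Work.MP_e0c7e8_nt.Sm

open Finset

theorem exists_dvd (q : ℕ) (hq : q ≠ 0) (y z : ℝ) (hy : 1 ≤ y) (hz : 1 ≤ z) (hyq : y ≤ q)
    (hp : ∀ p : ℕ, p.Prime → p ∣ q → (p : ℝ) ≤ z) : ∃ Q : ℕ, Q ∣ q ∧ y ≤ Q ∧ (Q : ℝ) ≤ y * z := by
  classical
  have hex : ∃ Q : ℕ, Q ∣ q ∧ y ≤ Q := ⟨q, dvd_rfl, hyq⟩
  have h1 := Nat.find_spec hex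
  set Q := Nat.find hex with hQ
  refine ⟨Q, h1.1, h1.2, ?_⟩
  by_cases hQ1 : Q = 1
  · rw [hQ1]
    push_cast
    nlinarith
  · obtain ⟨p, hpp, Q', hQ'⟩ := Nat.exists_prime_and_dvd hQ1
    have hQ0 : Q ≠ 0 := fun h => hq (Nat.eq_zero_of_zero_dvd (h ▸ h1.1))
    have hQ'0 : 0 < Q' := by
      rcases Nat.eq_zero_or_pos Q' with h | h
      · rw [h, mul_zero] at hQ'; exact absurd hQ' hQ0
      · exact h
    have hlt : Q' < Q := by
      rw [hQ']
      have := hpp.two_le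
      nlinarith
    have h2 := Nat.find_min hex hlt
    have h3 : Q' ∣ q := (Dvd.intro_left p hQ'.symm).trans h1.1
    have h4 : (Q' : ℝ) < y := by
      by_contra h
      exact h2 ⟨h3, not_lt.1 h⟩
    have h5 := hp p hpp ((Dvd.intro Q' hQ'.symm).trans h1.1)
    rw [hQ']
    push_cast
    have : (0 : ℝ) ≤ p := Nat.cast_nonneg p
    have : (0 : ℝ) ≤ Q' := Nat.cast_nonneg Q'
    nlinarith

theorem grouping (y z : ℝ) (hy : 1 < y) (hz : 1 ≤ z) (q : ℕ) : q ≠ 0 →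
    (∀ p : ℕ, p.Prime → p ∣ q → (p : ℝ) ≤ z) →
    ∃ l : List ℕ, l.prod = q ∧ (∀ s ∈ l, (s : ℝ) ≤ y * z) ∧ y ^ l.length ≤ y * q := by
  induction q using Nat.strong_induction_on with
  | _ q ih =>
    intro hq hp
    by_cases hqy : (q : ℝ) < y
    · refine ⟨[q], by simp, ?_, ?_⟩
      · intro s hs
        rw [List.mem_singleton] at hs
        subst hs
        nlinarith
      · rw [List.length_singleton, pow_one]
        have : (1 : ℝ) ≤ q := by exact_mod_cast Nat.pos_of_ne_zero hq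
        nlinarith
    · obtain ⟨Q, ⟨q', hqq⟩, h2, h3⟩ := exists_dvd q hq y z hy.le hz (not_lt.1 hqy) hp
      have hq'0 : q' ≠ 0 := by rintro rfl; exact hq (by rw [hqq, mul_zero])
      have hQ1 : 1 < Q := by
        have : (1 : ℝ) < Q := lt_of_lt_of_le hy h2
        exact_mod_cast this
      have hlt : q' < q := by
        rw [hqq]
        have := Nat.pos_of_ne_zero hq'0
        nlinarith
      obtain ⟨l, hl1, hl2, hl3⟩ := ih q' hlt hq'0
        (fun p hpp hpd => hp p hpp (hpd.trans (Dvd.intro_left Q hqq.symm)))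
      refine ⟨Q :: l, ?_, ?_, ?_⟩
      · rw [List.prod_cons, hl1, ← hqq]
      · intro s hs
        rcases List.mem_cons.1 hs with rfl | hs
        · exact h3
        · exact hl2 s hs
      · rw [List.length_cons, pow_succ, hqq]
        push_cast
        have : (0 : ℝ) < q' := by exact_mod_cast Nat.pos_of_ne_zero hq'0
        calc y ^ l.length * y ≤ (y * q') * Q := by
              refine mul_le_mul hl3 h2 (by linarith) (by nlinarith)
          _ = y * (Q * q') := by ring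

theorem Dg_zero (Q : ℕ) : Dg Q [0] = 1 := by
  classical
  unfold Dg
  refine Finset.prod_eq_one fun p hp => ?_
  have : Fact p.Prime := ⟨Nat.prime_of_mem_primeFactors hp⟩
  rw [if_neg (not_dg_zero p)]

theorem G_zero (q : ℕ) (n : ℤ) : G q [0] n = ((jacobiSym n q : ℤ) : ℝ) := by
  unfold G
  simp

theorem two_pow_le_tau (Q : ℕ) (hQ : Q ≠ 0) : 2 ^ Q.primeFactors.card ≤ Q.divisors.card := by
  rw [Nat.card_divisors hQ, ← Finset.prod_const]
  refine Finset.prod_le_prod (fun _ _ => by norm_num) fun p hp => ?_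
  have := (Nat.prime_of_mem_primeFactors hp).factorization_pos_of_dvd hQ
    (Nat.dvd_of_mem_primeFactors hp)
  omega

/-- short character sums to smooth moduli -/
theorem charsum (κ B : ℝ) (hκ : 0 < κ) (hκ4 : κ < 1 / 4) (hB : 0 ≤ B) :
    ∃ δ : ℝ, 0 < δ ∧ δ < 1 ∧ ∃ C : ℝ, 1 ≤ C ∧ ∀ N q : ℕ, 1 ≤ N → Squarefree q → Odd q →
      (N : ℝ) ^ κ ≤ q → (q : ℝ) ≤ (N : ℝ) ^ B →
      (∀ p : ℕ, p.Prime → p ∣ q → (p : ℝ) ≤ (N : ℝ) ^ (1 - 3 * κ)) →
      ∀ a b : ℤ, b - a ≤ N →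
        |∑ n ∈ Ico a b, ((jacobiSym n q : ℤ) : ℝ)| ≤ C * (N : ℝ) ^ (1 - δ) := by
  obtain ⟨r, hr⟩ : ∃ r : ℕ, r = ⌊1 + B / κ⌋₊ := ⟨_, rfl⟩
  have hr1 : 1 ≤ r := by
    rw [hr]
    apply Nat.le_floor
    have : 0 ≤ B / κ := by positivity
    push_cast
    linarith
  obtain ⟨A, hA, hiter⟩ := iter r
  obtain ⟨Ct, hCt, htau⟩ := Pool.Agent.Work.MP_e0aece_nt.exists_divisor_bound
    (1 / (8 * (r : ℝ))) (by positivity)
  set D : ℝ := A * (3 + Ct ^ (2 * r)) with hD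
  have hD1 : 1 ≤ D := by
    have : 0 ≤ Ct ^ (2 * r) := by positivity
    rw [hD]; nlinarith
  set δ : ℝ := κ / (4 * 2 ^ r) with hδ
  have hδ0 : 0 < δ := by positivity
  have h2r : (1 : ℝ) ≤ 2 ^ r := one_le_pow₀ (by norm_num)
  have hδ1 : δ < 1 := by
    rw [hδ, div_lt_one (by positivity)]
    linarith
  refine ⟨δ, hδ0, hδ1, D, hD1, ?_⟩
  intro N q hN hsq ho hq1 hq2 hp a b hab
  have hN0 : (0 : ℝ) < N := by exact_mod_cast hN
  have hN1 : (1 : ℝ) ≤ N := by exact_mod_cast hN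
  rcases hN.lt_or_eq with hN2 | hN2
  swap
  · -- `N = 1`
    subst hN2
    have h1 : |∑ n ∈ Ico a b, ((jacobiSym n q : ℤ) : ℝ)| ≤ ∑ _n ∈ Ico a b, (1 : ℝ) :=
      (Finset.abs_sum_le_sum_abs _ _).trans (Finset.sum_le_sum fun z _ => jac_abs _ _)
    rw [Finset.sum_const, Int.card_Ico, nsmul_eq_mul, mul_one] at h1
    have h2 : ((b - a).toNat : ℝ) ≤ 1 := by
      have : (b - a).toNat ≤ 1 := by push_cast at hab; omega
      exact_mod_cast this
    rw [Nat.cast_one, Real.one_rpow, mul_one]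
    linarith
  have hN1' : (1 : ℝ) < N := by exact_mod_cast hN2
  set y : ℝ := (N : ℝ) ^ κ with hy
  set z : ℝ := (N : ℝ) ^ (1 - 3 * κ) with hz
  have hy1 : 1 < y := Real.one_lt_rpow hN1' hκ
  have hz1 : 1 ≤ z := Real.one_le_rpow hN1 (by linarith)
  have hyz : y * z = (N : ℝ) ^ (1 - 2 * κ) := by
    rw [hy, hz, ← Real.rpow_add hN0]
    congr 1; ring
  obtain ⟨Q, ⟨q', hqq⟩, hQ1, hQ2⟩ := exists_dvd q hsq.ne_zero y z hy1.le hz1 hq1 hp
  have hq'0 : q' ≠ 0 := by rintro rfl; exact hsq.ne_zero (by rw [hqq, mul_zero])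
  have hQ0 : Q ≠ 0 := by rintro rfl; exact hsq.ne_zero (by rw [hqq, zero_mul])
  have hQ0' : (0 : ℝ) < Q := by exact_mod_cast Nat.pos_of_ne_zero hQ0
  obtain ⟨l, hl1, hl2, hl3⟩ := grouping y z hy1 hz1 q' hq'0
    (fun p hpp hpd => hp p hpp (hpd.trans (Dvd.intro_left Q hqq.symm)))
  have hlen : l.length ≤ r := by
    rw [hr]
    apply Nat.le_floor
    have h1 : y * (q' : ℝ) ≤ (N : ℝ) ^ (κ + B) := by
      rw [Real.rpow_add hN0, ← hy]
      refine mul_le_mul_of_nonneg_left ?_ (by linarith)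
      refine le_trans ?_ hq2
      rw [hqq]
      push_cast
      have h2 : (1 : ℝ) ≤ Q := by exact_mod_cast Nat.pos_of_ne_zero hQ0
      have h3 : (0 : ℝ) ≤ q' := Nat.cast_nonneg q'
      nlinarith
    have h2 : y ^ l.length = (N : ℝ) ^ (κ * l.length) := by
      rw [hy, ← Real.rpow_natCast, ← Real.rpow_mul hN0.le]
    have h3 : (N : ℝ) ^ (κ * l.length) ≤ (N : ℝ) ^ (κ + B) := by rw [← h2]; exact hl3.trans h1
    rw [Real.rpow_le_rpow_left_iff hN1'] at h3
    have h4 : (l.length : ℝ) * κ ≤ (1 + B / κ) * κ := by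
      rw [add_mul, one_mul, div_mul_cancel₀ _ hκ.ne']
      linarith
    exact le_of_mul_le_mul_right h4 hκ
  set l2 : List ℕ := l ++ List.replicate (r - l.length) 1 with hl2'
  have hl2len : l2.length = r := by
    rw [hl2', List.length_append, List.length_replicate]; omega
  have hl2prod : l2.prod = q' := by
    rw [hl2', List.prod_append, List.prod_replicate, one_pow, mul_one, hl1]
  set H : ℕ := ⌊y⌋₊ with hH
  have hH1 : 1 ≤ H := Nat.le_floor (by exact_mod_cast hy1.le)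
  have hHy : (H : ℝ) ≤ y := Nat.floor_le (by linarith)
  have hHy2 : y ≤ 2 * H := by
    have h1 := Nat.lt_floor_add_one y
    have h2 : (1 : ℝ) ≤ H := by exact_mod_cast hH1
    linarith
  have hHs : ∀ s ∈ l2, H * s ≤ N := by
    intro s hs
    have hs' : (s : ℝ) ≤ y * z := by
      rw [hl2', List.mem_append] at hs
      rcases hs with hs | hs
      · exact hl2 s hs
      · rw [List.eq_of_mem_replicate hs]
        push_cast
        nlinarith
    have h1 : (H : ℝ) * s ≤ N := by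
      calc (H : ℝ) * s ≤ y * (y * z) := mul_le_mul hHy hs' (Nat.cast_nonneg s) (by linarith)
        _ = (N : ℝ) ^ (1 - κ) := by
            rw [hyz, hy, ← Real.rpow_add hN0]
            congr 1; ring
        _ ≤ (N : ℝ) ^ (1 : ℝ) := Real.rpow_le_rpow_of_exponent_le hN1 (by linarith)
        _ = N := Real.rpow_one _
    exact_mod_cast h1
  have hoQ : Odd Q := (Nat.odd_mul.1 (hqq ▸ ho)).1
  have h1 := hiter (2 ^ r) [0] l2 Q H N hl2len (by simp) (by simp) hH1 hN hHs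
    (by rw [hl2prod, ← hqq]; exact hsq) hoQ a b hab
  rw [hl2prod, ← hqq] at h1
  simp only [G_zero] at h1
  set S : ℝ := |∑ n ∈ Ico a b, ((jacobiSym n q : ℤ) : ℝ)| with hS
  have hX : XX H Q N r (2 ^ r) [0] ≤ (3 + Ct ^ (2 * r)) * (N : ℝ) ^ (-(κ / 4)) := by
    unfold XX
    rw [Dg_zero]
    have e1 : 1 / (H : ℝ) ≤ 2 * (N : ℝ) ^ (-(κ / 4)) := by
      have h2 : (0 : ℝ) < H := by exact_mod_cast hH1
      have h3 : 1 / (H : ℝ) ≤ 2 * (1 / y) := by
        rw [mul_one_div, div_le_div_iff₀ h2 (by linarith)]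
        linarith
      refine h3.trans ?_
      refine mul_le_mul_of_nonneg_left ?_ (by norm_num)
      rw [hy, one_div, ← Real.rpow_neg hN0.le]
      exact Real.rpow_le_rpow_of_exponent_le hN1 (by linarith)
    have e2 : (Q : ℝ) / N ≤ (N : ℝ) ^ (-(κ / 4)) := by
      calc (Q : ℝ) / N ≤ (N : ℝ) ^ (1 - 2 * κ) / N := by rw [← hyz]; gcongr
        _ = (N : ℝ) ^ (-(2 * κ)) := by
            nth_rewrite 2 [← Real.rpow_one (N : ℝ)]
            rw [← Real.rpow_sub hN0]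
            congr 1; ring
        _ ≤ _ := Real.rpow_le_rpow_of_exponent_le hN1 (by linarith)
    have e3 : ((2 : ℝ) ^ r) ^ Q.primeFactors.card * (Q.divisors.card : ℝ) ^ r *
        Real.sqrt (1 / Q) ≤ Ct ^ (2 * r) * (N : ℝ) ^ (-(κ / 4)) := by
      have hQ1' : 1 ≤ Q := Nat.pos_of_ne_zero hQ0
      have f1 : ((2 : ℝ) ^ r) ^ Q.primeFactors.card ≤ (Q.divisors.card : ℝ) ^ r := by
        rw [← pow_mul, mul_comm, pow_mul]
        gcongr
        exact_mod_cast two_pow_le_tau Q hQ0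
      have f2 : (Q.divisors.card : ℝ) ^ (2 * r) ≤ Ct ^ (2 * r) * (Q : ℝ) ^ ((1 : ℝ) / 4) := by
        calc (Q.divisors.card : ℝ) ^ (2 * r) ≤ (Ct * (Q : ℝ) ^ (1 / (8 * (r : ℝ)))) ^ (2 * r) := by
              gcongr
              exact htau Q hQ1'
          _ = Ct ^ (2 * r) * (Q : ℝ) ^ ((1 : ℝ) / 4) := by
              rw [mul_pow]
              congr 1
              rw [← Real.rpow_natCast, ← Real.rpow_mul hQ0'.le]
              congr 1
              push_cast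
              have : (r : ℝ) ≠ 0 := by positivity
              field_simp
              norm_num
      have f3 : Real.sqrt (1 / Q) = (Q : ℝ) ^ (-(1 : ℝ) / 2) := by
        rw [Real.sqrt_eq_rpow, one_div, Real.inv_rpow hQ0'.le, ← Real.rpow_neg hQ0'.le]
        congr 1; ring
      calc ((2 : ℝ) ^ r) ^ Q.primeFactors.card * (Q.divisors.card : ℝ) ^ r * Real.sqrt (1 / Q)
          ≤ (Q.divisors.card : ℝ) ^ r * (Q.divisors.card : ℝ) ^ r * Real.sqrt (1 / Q) := by gcongr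
        _ = (Q.divisors.card : ℝ) ^ (2 * r) * (Q : ℝ) ^ (-(1 : ℝ) / 2) := by
            rw [f3, ← pow_add, two_mul]
        _ ≤ (Ct ^ (2 * r) * (Q : ℝ) ^ ((1 : ℝ) / 4)) * (Q : ℝ) ^ (-(1 : ℝ) / 2) := by gcongr
        _ = Ct ^ (2 * r) * (Q : ℝ) ^ (-((1 : ℝ) / 4)) := by
            rw [mul_assoc, ← Real.rpow_add hQ0']
            congr 2; norm_num
        _ ≤ Ct ^ (2 * r) * y ^ (-((1 : ℝ) / 4)) := by
            refine mul_le_mul_of_nonneg_left ?_ (by positivity)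
            exact Real.rpow_le_rpow_of_nonpos (by linarith) hQ1 (by norm_num)
        _ = Ct ^ (2 * r) * (N : ℝ) ^ (-(κ / 4)) := by
            rw [hy, ← Real.rpow_mul hN0.le]
            congr 2; ring
    linarith
  have h2 : (S / N) ^ (2 ^ r) ≤ (D * (N : ℝ) ^ (-δ)) ^ (2 ^ r) := by
    refine h1.trans ?_
    have g1 : ((N : ℝ) ^ (-δ)) ^ (2 ^ r) = (N : ℝ) ^ (-(κ / 4)) := by
      rw [← Real.rpow_natCast, ← Real.rpow_mul hN0.le]
      congr 1
      rw [hδ]
      push_cast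
      field_simp
    rw [mul_pow, g1]
    have g2 : D ≤ D ^ (2 ^ r) := le_self_pow₀ hD1 (by positivity)
    have g3 : 0 ≤ (N : ℝ) ^ (-(κ / 4)) := by positivity
    calc A * XX H Q N r (2 ^ r) [0] ≤ A * ((3 + Ct ^ (2 * r)) * (N : ℝ) ^ (-(κ / 4))) := by gcongr
      _ = D * (N : ℝ) ^ (-(κ / 4)) := by rw [hD]; ring
      _ ≤ D ^ (2 ^ r) * (N : ℝ) ^ (-(κ / 4)) := by gcongr
  have h3 : S / N ≤ D * (N : ℝ) ^ (-δ) :=
    le_of_pow_le_pow_left₀ (by positivity) (by positivity) h2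
  rw [div_le_iff₀ hN0] at h3
  refine h3.trans (le_of_eq ?_)
  rw [sub_eq_add_neg, Real.rpow_add hN0, Real.rpow_one]
  ring

end Pool.Agent.Work.MP_e0c7e8_nt.Sm
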