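import Pool.Agent.Work.MP_e0c7e8_nt.Sm.Field

/-!
# Number of ideals of given norm in a quadratic field
-/

set_option autoImplicit false

namespace Pool.Agent.Work.MP_e0c7e8_nt.Sm

open NumberField Ideal

variable {K : Type} [Field K] [NumberField K]

variable (K) in
/-- number of ideals of norm `n` -/
noncomputable def fN (n : ℕ) : ℕ := {I : Ideal (𝓞 K) | absNorm I = n}.ncard

theorem fin_eq (n : ℕ) : {I : Ideal (𝓞 K) | absNorm I = n}.Finite :=
  (Ideal.finite_setOfPred_absNorm_le (S := 𝓞 K) n).subset fun I h => (show absNorm I = n from h).le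

theorem sup_mul_sup (I : Ideal (𝓞 K)) (m n : ℕ) (hc : m.Coprime n)
    (h : ((m * n : ℕ) : 𝓞 K) ∈ I) : (I ⊔ span {(m : 𝓞 K)}) * (I ⊔ span {(n : 𝓞 K)}) = I := by
  have hAB : span {(m : 𝓞 K)} ⊔ span {(n : 𝓞 K)} = ⊤ := by
    rw [Ideal.eq_top_iff_one, ← Ideal.span_insert]
    obtain ⟨u, v, huv⟩ := (Nat.isCoprime_iff_coprime.2 hc)
    have huv' : (u : 𝓞 K) * m + v * n = 1 := by exact_mod_cast congrArg (Int.cast : ℤ → 𝓞 K) huv
    rw [← huv']
    exact Ideal.add_mem _ (Ideal.mul_mem_left _ _ (subset_span (by simp)))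
      (Ideal.mul_mem_left _ _ (subset_span (by simp)))
  have hABm : span {(m : 𝓞 K)} * span {(n : 𝓞 K)} ≤ I := by
    rw [Ideal.span_singleton_mul_span_singleton, span_singleton_le_iff_mem]
    exact_mod_cast h
  apply le_antisymm
  · rw [Ideal.sup_mul, Ideal.mul_sup, Ideal.mul_sup]
    exact sup_le (sup_le Ideal.mul_le_left Ideal.mul_le_left)
      (sup_le Ideal.mul_le_right hABm)
  · calc I = I * (span {(m : 𝓞 K)} ⊔ span {(n : 𝓞 K)}) := by rw [hAB, Ideal.mul_top]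
      _ = I * span {(m : 𝓞 K)} ⊔ I * span {(n : 𝓞 K)} := Ideal.mul_sup _ _ _
      _ ≤ _ := by
        refine sup_le ?_ ?_
        · rw [mul_comm]
          exact Ideal.mul_mono le_sup_right le_sup_left
        · exact Ideal.mul_mono le_sup_left le_sup_right

theorem norm_sup (h2 : Module.finrank ℚ K = 2) (I : Ideal (𝓞 K)) (m n : ℕ) (hc : m.Coprime n)
    (hm : 0 < m) (hn : 0 < n) (h : absNorm I = m * n) :
    absNorm (I ⊔ span {(m : 𝓞 K)}) = m ∧ absNorm (I ⊔ span {(n : 𝓞 K)}) = n := by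
  have hr : Module.finrank ℤ (𝓞 K) = 2 := by rw [RingOfIntegers.rank, h2]
  have hmem : ((m * n : ℕ) : 𝓞 K) ∈ I := by rw [← h]; exact absNorm_mem I
  have h1 := congrArg absNorm (sup_mul_sup I m n hc hmem)
  rw [map_mul, h] at h1
  set a := absNorm (I ⊔ span {(m : 𝓞 K)}) with ha
  set b := absNorm (I ⊔ span {(n : 𝓞 K)}) with hb
  have h3 : a ∣ m ^ 2 := by
    have := absNorm_dvd_absNorm_of_le (le_sup_right : span {(m : 𝓞 K)} ≤ I ⊔ span {(m : 𝓞 K)})
    rwa [absNorm_span_natCast, hr] at this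
  have h4 : b ∣ n ^ 2 := by
    have := absNorm_dvd_absNorm_of_le (le_sup_right : span {(n : 𝓞 K)} ≤ I ⊔ span {(n : 𝓞 K)})
    rwa [absNorm_span_natCast, hr] at this
  have h5 : a ∣ m := by
    have h6 : a.Coprime n := Nat.Coprime.coprime_dvd_left h3 (Nat.Coprime.pow_left 2 hc)
    exact h6.dvd_of_dvd_mul_right (h1 ▸ Dvd.intro _ rfl)
  have h7 : b ∣ n := by
    have h6 : b.Coprime m := Nat.Coprime.coprime_dvd_left h4 (Nat.Coprime.pow_left 2 hc.symm)
    exact h6.dvd_of_dvd_mul_left (h1 ▸ Dvd.intro_left _ rfl)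
  have h8 := Nat.le_of_dvd hm h5
  have h9 := Nat.le_of_dvd hn h7
  constructor
  · nlinarith
  · nlinarith

theorem fN_mul (h2 : Module.finrank ℚ K = 2) (m n : ℕ) (hc : m.Coprime n)
    (hm : 0 < m) (hn : 0 < n) : fN K (m * n) ≤ fN K m * fN K n := by
  unfold fN
  rw [← Set.ncard_prod]
  refine Set.ncard_le_ncard_of_injOn
    (fun I => (I ⊔ span {(m : 𝓞 K)}, I ⊔ span {(n : 𝓞 K)})) ?_ ?_ ((fin_eq m).prod (fin_eq n))
  · intro I hI
    exact norm_sup h2 I m n hc hm hn hI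
  · intro I hI J hJ hIJ
    have hI' : absNorm I = m * n := hI
    have hJ' : absNorm J = m * n := hJ
    rw [Prod.mk.injEq] at hIJ
    rw [← sup_mul_sup I m n hc (by rw [← hI']; exact absNorm_mem I),
      ← sup_mul_sup J m n hc (by rw [← hJ']; exact absNorm_mem J), hIJ.1, hIJ.2]

theorem exists_prime_dvd (p : ℕ) (hp : p.Prime) (e : ℕ) (he : e ≠ 0) (I : Ideal (𝓞 K))
    (hI : absNorm I = p ^ e) : ∃ R : Ideal (𝓞 K), R.IsPrime ∧ R ≠ ⊥ ∧ (p : 𝓞 K) ∈ R ∧ R ∣ I := by
  have h1 : I ≠ ⊤ := by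
    rintro rfl
    rw [absNorm_top] at hI
    have := Nat.one_lt_pow he hp.one_lt
    omega
  have h0 : I ≠ ⊥ := by
    rintro rfl
    rw [absNorm_bot] at hI
    exact (pow_pos hp.pos e).ne hI
  obtain ⟨R, hR, hIR⟩ := Ideal.exists_le_maximal I h1
  refine ⟨R, hR.isPrime, ?_, ?_, Ideal.dvd_iff_le.2 hIR⟩
  · rintro rfl
    exact h0 (le_bot_iff.1 hIR)
  · have h3 : ((absNorm I : ℕ) : 𝓞 K) ∈ R := hIR (absNorm_mem I)
    rw [hI, Nat.cast_pow] at h3
    exact hR.isPrime.mem_of_pow_mem e h3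

/-- uniqueness of ideals of prime power norm when only one prime is allowed -/
theorem uniq (p : ℕ) (hp : p.Prime) (Q : Ideal (𝓞 K)) (c : Ideal (𝓞 K) → Prop)
    (hc : ∀ A B, c (A * B) → c B)
    (h : ∀ R : Ideal (𝓞 K), R.IsPrime → R ≠ ⊥ → (p : 𝓞 K) ∈ R → ∀ I, c I → R ∣ I → R = Q)
    (e : ℕ) : ∀ I J : Ideal (𝓞 K), c I → c J → absNorm I = p ^ e → absNorm J = p ^ e → I = J := by
  induction e using Nat.strong_induction_on with
  | _ e ih =>
    intro I J cI cJ hI hJ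
    by_cases he : e = 0
    · subst he
      rw [pow_zero, absNorm_eq_one_iff] at hI hJ
      rw [hI, hJ]
    · obtain ⟨R, r1, r2, r3, r4⟩ := exists_prime_dvd p hp e he I hI
      obtain ⟨R', s1, s2, s3, s4⟩ := exists_prime_dvd p hp e he J hJ
      have hR := h R r1 r2 r3 I cI r4
      have hR' := h R' s1 s2 s3 J cJ s4
      subst hR
      rw [hR'] at s4
      obtain ⟨I', rfl⟩ := r4
      obtain ⟨J', rfl⟩ := s4
      rw [map_mul] at hI hJ
      have hd : absNorm I' ∣ p ^ e := Dvd.intro_left _ hI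
      obtain ⟨i, hi, hi'⟩ := (Nat.dvd_prime_pow hp).mp hd
      have hR1 : absNorm R ≠ 1 := by
        rw [Ne, absNorm_eq_one_iff]
        exact r1.ne_top
      have hR0 : 0 < absNorm R := by
        rcases Nat.eq_zero_or_pos (absNorm R) with h0 | h0
        · rw [h0, zero_mul] at hI
          exact absurd hI.symm (pow_pos hp.pos e).ne'
        · exact h0
      have hlt : i < e := by
        rcases hi.lt_or_eq with h3 | h3
        · exact h3
        · exfalso
          rw [hi', h3] at hI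
          have := pow_pos hp.pos e
          exact hR1 (Nat.eq_of_mul_eq_mul_right this (by rw [hI, one_mul]))
      have hJ' : absNorm J' = p ^ i := by
        rw [← hi']
        exact Nat.eq_of_mul_eq_mul_left hR0 (by rw [hI, hJ])
      rw [ih i hlt I' J' (hc _ _ cI) (hc _ _ cJ) hi' hJ']

/-- an ideal of norm an odd power of `p` gives a prime of norm `p` -/
theorem odd_pow (h2 : Module.finrank ℚ K = 2) (p : ℕ) (hp : p.Prime) (e : ℕ) (he : Odd e) :
    ∀ I : Ideal (𝓞 K), absNorm I = p ^ e → ∃ P : Ideal (𝓞 K), absNorm P = p := by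
  induction e using Nat.strong_induction_on with
  | _ e ih =>
    intro I hI
    obtain ⟨R, r1, r2, r3, ⟨J, rfl⟩⟩ := exists_prime_dvd p hp e he.pos.ne' I hI
    rcases norm_of_mem h2 R r1 p hp r3 with h | h
    · exact ⟨R, h⟩
    · rw [map_mul, h] at hI
      have he2 : 2 ≤ e := by
        by_contra h3
        have : e = 1 := by have := he.pos; omega
        rw [this, pow_one, pow_two, mul_assoc] at hI
        have h4 : p * absNorm J = 1 := Nat.eq_of_mul_eq_mul_left hp.pos (by rw [hI, mul_one])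
        have := Nat.eq_one_of_mul_eq_one_right h4
        exact hp.one_lt.ne' this
      obtain ⟨e', rfl⟩ := Nat.exists_eq_add_of_le he2
      rw [pow_add] at hI
      have h5 : absNorm J = p ^ e' := Nat.eq_of_mul_eq_mul_left (pow_pos hp.pos 2) hI
      exact ih e' (by omega) (by rw [Nat.odd_iff] at he ⊢; omega) J h5

theorem ncard_le_one_of_uniq {α : Type} (s : Set α) (h : ∀ a ∈ s, ∀ b ∈ s, a = b) :
    s.ncard ≤ 1 := by
  rcases s.eq_empty_or_nonempty with rfl | ⟨a, ha⟩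
  · simp
  · have : s ⊆ {a} := fun b hb => h b hb a ha
    exact (Set.ncard_le_ncard this (Set.finite_singleton a)).trans (by simp)

/-- at most one ideal of norm `p ^ e` if all primes above `p` are equal -/
theorem fN_le_one (p : ℕ) (hp : p.Prime) (h : ∀ R R' : Ideal (𝓞 K), R.IsPrime → R ≠ ⊥ →
    (p : 𝓞 K) ∈ R → R'.IsPrime → R' ≠ ⊥ → (p : 𝓞 K) ∈ R' → R = R') (e : ℕ) :
    fN K (p ^ e) ≤ 1 := by
  unfold fN
  apply ncard_le_one_of_uniq
  intro I hI J hJ
  by_cases hex : ∃ Q : Ideal (𝓞 K), Q.IsPrime ∧ Q ≠ ⊥ ∧ (p : 𝓞 K) ∈ Q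
  · obtain ⟨Q, q1, q2, q3⟩ := hex
    exact uniq p hp Q (fun _ => True) (fun _ _ _ => trivial)
      (fun R r1 r2 r3 _ _ _ => h R Q r1 r2 r3 q1 q2 q3) e I J trivial trivial hI hJ
  · exact uniq p hp ⊥ (fun _ => True) (fun _ _ _ => trivial)
      (fun R r1 r2 r3 _ _ _ => absurd ⟨R, r1, r2, r3⟩ hex) e I J trivial trivial hI hJ

theorem two_primes (h2 : Module.finrank ℚ K = 2) (p : ℕ) (hp : p.Prime) :
    ∃ Q1 Q2 : Ideal (𝓞 K), Q1 ≠ ⊤ ∧ ∀ R : Ideal (𝓞 K), R.IsPrime → R ≠ ⊥ → (p : 𝓞 K) ∈ R →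
      R = Q1 ∨ R = Q2 := by
  classical
  by_contra hcon
  push Not at hcon
  obtain ⟨A, a1, a2, a3, _, _⟩ := hcon ⊥ ⊥ bot_ne_top
  obtain ⟨B, b1, b2, b3, hBA, _⟩ := hcon A A a1.ne_top
  obtain ⟨C, c1, c2, c3, hCA, hCB⟩ := hcon A B a1.ne_top
  have := (fibre_card h2 p hp {A, B, C} (by
    intro P hP
    simp only [Finset.mem_insert, Finset.mem_singleton] at hP
    rcases hP with rfl | rfl | rfl
    · exact ⟨a1, a2, a3⟩
    · exact ⟨b1, b2, b3⟩
    · exact ⟨c1, c2, c3⟩)).1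
  rw [Finset.card_insert_of_notMem, Finset.card_pair (Ne.symm hCB)] at this
  · omega
  · simp only [Finset.mem_insert, Finset.mem_singleton, not_or]
    exact ⟨Ne.symm hBA, Ne.symm hCA⟩

/-- general bound for prime powers -/
theorem fN_pow_le (h2 : Module.finrank ℚ K = 2) (p : ℕ) (hp : p.Prime) (e : ℕ) :
    fN K (p ^ e) ≤ e + 1 := by
  classical
  obtain ⟨Q1, Q2, hQ1t, hQ⟩ := two_primes h2 p hp
  induction e using Nat.strong_induction_on with
  | _ e ih =>
    set S : Set (Ideal (𝓞 K)) := {I | absNorm I = p ^ e} with hS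
    have hSf : S.Finite := fin_eq _
    have hsplit : S ⊆ {I ∈ S | Q1 ∣ I} ∪ {I ∈ S | ¬ Q1 ∣ I} := by
      intro I hI
      by_cases h : Q1 ∣ I
      · exact Or.inl ⟨hI, h⟩
      · exact Or.inr ⟨hI, h⟩
    have hB : {I ∈ S | ¬ Q1 ∣ I}.ncard ≤ 1 := by
      apply ncard_le_one_of_uniq
      intro I hI J hJ
      refine uniq p hp Q2 (fun I => ¬ Q1 ∣ I) (fun A B h h' => h (h'.mul_left A)) ?_ e I J
        hI.2 hJ.2 hI.1 hJ.1
      intro R r1 r2 r3 I cI hRI
      rcases hQ R r1 r2 r3 with h | h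
      · exact absurd (h ▸ hRI) cI
      · exact h
    have hA : {I ∈ S | Q1 ∣ I}.ncard ≤ e := by
      by_cases hQ1 : ∃ i, 1 ≤ i ∧ i ≤ e ∧ absNorm Q1 = p ^ i
      · obtain ⟨i, hi1, hi2, hi3⟩ := hQ1
        have h3 := ih (e - i) (by omega)
        refine le_trans ?_ (h3.trans (by omega))
        unfold fN
        have hex : ∀ I : Ideal (𝓞 K), ∃ J, Q1 ∣ I → I = Q1 * J := by
          intro I
          by_cases h : Q1 ∣ I
          · obtain ⟨J, hJ⟩ := h
            exact ⟨J, fun _ => hJ⟩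
          · exact ⟨⊥, fun h' => absurd h' h⟩
        choose g hg using hex
        refine Set.ncard_le_ncard_of_injOn g ?_ ?_ (fin_eq _)
        · rintro I ⟨hI, hQI⟩
          have hI' : absNorm I = p ^ e := hI
          rw [hg I hQI, map_mul, hi3] at hI'
          have h5 : p ^ e = p ^ i * p ^ (e - i) := by rw [← pow_add]; congr 1; omega
          rw [h5] at hI'
          exact Nat.eq_of_mul_eq_mul_left (pow_pos hp.pos i) hI'
        · rintro I ⟨hI, hQI⟩ J ⟨hJ, hQJ⟩ hIJ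
          rw [hg I hQI, hg J hQJ, hIJ]
      · have h3 : {I ∈ S | Q1 ∣ I} = ∅ := by
          rw [Set.eq_empty_iff_forall_notMem]
          rintro I ⟨hI, J, rfl⟩
          have hI' : absNorm (Q1 * J) = p ^ e := hI
          rw [map_mul] at hI'
          obtain ⟨i, hi, hi'⟩ := (Nat.dvd_prime_pow hp).mp (Dvd.intro _ hI')
          refine hQ1 ⟨i, ?_, hi, hi'⟩
          rcases Nat.eq_zero_or_pos i with h0 | h0
          · rw [h0, pow_zero, absNorm_eq_one_iff] at hi'
            exact absurd hi' hQ1t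
          · exact h0
        rw [h3, Set.ncard_empty]
        exact Nat.zero_le _
    calc S.ncard ≤ ({I ∈ S | Q1 ∣ I} ∪ {I ∈ S | ¬ Q1 ∣ I}).ncard :=
          Set.ncard_le_ncard hsplit (Set.Finite.union (hSf.subset (fun I h => h.1))
            (hSf.subset (fun I h => h.1)))
      _ ≤ {I ∈ S | Q1 ∣ I}.ncard + {I ∈ S | ¬ Q1 ∣ I}.ncard := Set.ncard_union_le _ _
      _ ≤ e + 1 := by omega

end Pool.Agent.Work.MP_e0c7e8_nt.Sm
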