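import Pool.Agent.Work.MP_e0c7e8_nt.Sm.Cnt
import Pool.Agent.Work.MP_e0c7e8_nt.Sm.Arith

/-!
# Ideals of given norm and the character of the field; the torsion bound; the class number
-/

set_option autoImplicit false

namespace Pool.Agent.Work.MP_e0c7e8_nt.Sm

open NumberField Ideal

open scoped nonZeroDivisors

variable {K : Type} [Field K] [NumberField K]

theorem two_above (h2 : Module.finrank ℚ K = 2) (p : ℕ) (hp : p.Prime) (R R' : Ideal (𝓞 K))
    (hne : R ≠ R') (r1 : R.IsPrime) (r2 : R ≠ ⊥) (r3 : (p : 𝓞 K) ∈ R) (s1 : R'.IsPrime)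
    (s2 : R' ≠ ⊥) (s3 : (p : 𝓞 K) ∈ R') : absNorm R = p ∧ absNorm R' = p := by
  classical
  have h := fibre_prod h2 p hp {R, R'} (by
    intro P hP
    simp only [Finset.mem_insert, Finset.mem_singleton] at hP
    rcases hP with rfl | rfl
    · exact ⟨r1, r2, r3⟩
    · exact ⟨s1, s2, s3⟩)
  rw [Finset.prod_pair hne] at h
  have hp2 := hp.two_le
  rcases norm_of_mem h2 R r1 p hp r3 with h1 | h1 <;>
    rcases norm_of_mem h2 R' s1 p hp s3 with h3 | h3
  · exact ⟨h1, h3⟩
  · exfalso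
    rw [h1, h3] at h
    have : 0 < p ^ 2 := pow_pos hp.pos 2
    nlinarith
  · exfalso
    rw [h1, h3] at h
    have : 0 < p ^ 2 := pow_pos hp.pos 2
    nlinarith
  · exfalso
    rw [h1, h3] at h
    have : 4 ≤ p ^ 2 := by nlinarith
    nlinarith

theorem fN_le_rr_pow (h2 : Module.finrank ℚ K = 2) (hd : discr K < 0) (p : ℕ) (hp : p.Prime)
    (hp2 : p ≠ 2) (e : ℕ) : (fN K (p ^ e) : ℤ) ≤ rr (discr K) (p ^ e) := by
  have : Fact p.Prime := ⟨hp⟩
  rw [rr_prime_pow _ p hp]
  have hno : ∀ P : Ideal (𝓞 K), absNorm P = p → jacobiSym (discr K) p ≠ -1 := by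
    intro P hP
    rw [← jacobiSym.legendreSym.to_jacobiSym]
    exact no_norm h2 p P hP
  rcases jacobiSym.trichotomy (discr K) p with h | h | h
  · rw [h]
    have h1 : ∑ i ∈ Finset.range (e + 1), (0 : ℤ) ^ i = 1 := by
      rw [Finset.sum_range_succ']
      simp
    rw [h1]
    have hpd : (p : ℤ) ∣ discr K := by
      rw [← jacobiSym.legendreSym.to_jacobiSym, legendreSym.eq_zero_iff] at h
      exact (ZMod.intCast_zmod_eq_zero_iff_dvd _ p).1 h
    have h3 := fN_le_one (K := K) p hp (fun R R' r1 r2 r3 s1 s2 s3 => by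
      by_contra hne
      obtain ⟨a, b⟩ := two_above h2 p hp R R' hne r1 r2 r3 s1 s2 s3
      exact hne (ramified h2 hd p hp hp2 hpd R R' a b)) e
    exact_mod_cast h3
  · rw [h]
    have h1 : ∑ i ∈ Finset.range (e + 1), (1 : ℤ) ^ i = e + 1 := by
      simp
    rw [h1]
    exact_mod_cast fN_pow_le h2 p hp e
  · have h3 := fN_le_one (K := K) p hp (fun R R' r1 r2 r3 s1 s2 s3 => by
      by_contra hne
      obtain ⟨a, b⟩ := two_above h2 p hp R R' hne r1 r2 r3 s1 s2 s3
      exact hno R a h) e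
    rw [h, neg_one_geom_sum]
    split_ifs with he
    · have ho : Odd e := by
        rw [Nat.even_add_one, Nat.not_even_iff_odd] at he
        exact he
      have h4 : {I : Ideal (𝓞 K) | absNorm I = p ^ e} = ∅ := by
        rw [Set.eq_empty_iff_forall_notMem]
        intro I hI
        obtain ⟨P, hP⟩ := odd_pow h2 p hp e ho I hI
        exact hno P hP h
      unfold fN
      rw [h4, Set.ncard_empty]
      simp
    · exact_mod_cast h3

theorem fN_le_rr (h2 : Module.finrank ℚ K = 2) (hd : discr K < 0) (n : ℕ) :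
    Odd n → (fN K n : ℤ) ≤ rr (discr K) n := by
  induction n using Nat.recOnPosPrimePosCoprime with
  | prime_pow p e hp he =>
    intro ho
    refine fN_le_rr_pow h2 hd p hp ?_ e
    rintro rfl
    exact absurd (ho.of_dvd_nat (dvd_pow_self 2 he.ne')) (by decide)
  | zero => intro ho; exact absurd ho (by decide)
  | one =>
    intro _
    rw [rr_one]
    have := fN_pow_le h2 2 Nat.prime_two 0
    rw [pow_zero] at this
    exact_mod_cast this
  | coprime a b ha hb hab iha ihb =>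
    intro ho
    obtain ⟨hoa, hob⟩ := Nat.odd_mul.1 ho
    rw [rr_mul _ a b hab]
    have h1 := fN_mul h2 a b hab (by omega) (by omega)
    have h3 := iha hoa
    have h4 := ihb hob
    calc ((fN K (a * b) : ℕ) : ℤ) ≤ (fN K a : ℤ) * fN K b := by exact_mod_cast h1
      _ ≤ rr (discr K) a * rr (discr K) b := by
        exact mul_le_mul h3 h4 (Int.natCast_nonneg _) ((Int.natCast_nonneg _).trans h3)

/-! ### The torsion bound -/

theorem principal_int (h2 : Module.finrank ℚ K = 2) (hd : discr K < 0) (I : Ideal (𝓞 K))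
    (hI : I.IsPrincipal) (hn : 4 * (absNorm I : ℤ) < |discr K|) :
    ∃ a : ℤ, I = span {(a : 𝓞 K)} := by
  obtain ⟨α, hα⟩ := hI.principal
  have hα' : I = span {α} := hα
  have hN : (absNorm I : ℤ) = |Algebra.norm ℤ α| := by
    rw [hα', absNorm_span_singleton]
    exact Int.natCast_natAbs _
  by_cases hm : ∃ m : ℤ, α = (m : 𝓞 K)
  · obtain ⟨m, rfl⟩ := hm
    exact ⟨m, hα'⟩
  · push Not at hm
    have := norm_lower h2 hd α hm
    rw [← hN] at this
    linarith

theorem torsion_mul (h2 : Module.finrank ℚ K = 2) (hd : discr K < 0) (k : ℕ) (hk : 1 ≤ k) (x : ℕ)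
    (hx : 4 * (x : ℤ) ^ (2 * k) < |discr K|) :
    Nat.card {c : ClassGroup (𝓞 K) // c ^ k = 1} * (TT (discr K) x).card ≤
      Nat.card (ClassGroup (𝓞 K)) := by
  classical
  have hr : Module.finrank ℤ (𝓞 K) = 2 := by rw [RingOfIntegers.rank, h2]
  have hex : ∀ p : ℕ, ∃ P P' : Ideal (𝓞 K), P ≠ ⊥ ∧ P' ≠ ⊥ ∧
      (p.Prime ∧ p ≠ 2 ∧ jacobiSym (discr K) p = 1 →
        absNorm P = p ∧ absNorm P' = p ∧ P * P' = span {(p : 𝓞 K)} ∧ P ≠ P') := by
    intro p
    by_cases h : p.Prime ∧ p ≠ 2 ∧ jacobiSym (discr K) p = 1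
    · obtain ⟨hp, hp2, hj⟩ := h
      have : Fact p.Prime := ⟨hp⟩
      rw [← jacobiSym.legendreSym.to_jacobiSym] at hj
      obtain ⟨P, P', a, b, c, e⟩ := split_prime h2 hd p hp2 hj
      refine ⟨P, P', ?_, ?_, fun _ => ⟨a, b, c, e⟩⟩
      · rintro rfl; rw [absNorm_bot] at a; exact hp.ne_zero a.symm
      · rintro rfl; rw [absNorm_bot] at b; exact hp.ne_zero b.symm
    · exact ⟨⊤, ⊤, top_ne_bot, top_ne_bot, fun h' => absurd h' h⟩
  choose P P' hP0 hP'0 hPP using hex
  set I : ℕ → Ideal (𝓞 K) := fun n => ∏ p ∈ n.primeFactors, P p with hI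
  set I' : ℕ → Ideal (𝓞 K) := fun n => ∏ p ∈ n.primeFactors, P' p with hI'
  have hI0 : ∀ n, I n ≠ 0 := fun n => Finset.prod_ne_zero_iff.2 fun p _ => hP0 p
  have hI'0 : ∀ n, I' n ≠ 0 := fun n => Finset.prod_ne_zero_iff.2 fun p _ => hP'0 p
  have hgood : ∀ n, IsT (discr K) n → ∀ p ∈ n.primeFactors,
      p.Prime ∧ p ≠ 2 ∧ jacobiSym (discr K) p = 1 := by
    intro n hn p hp
    have hpp := Nat.prime_of_mem_primeFactors hp
    have hpn := Nat.dvd_of_mem_primeFactors hp
    refine ⟨hpp, ?_, hn.2.2 p hpp hpn⟩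
    rintro rfl
    exact absurd (hn.2.1.of_dvd_nat hpn) (by decide)
  have hmul : ∀ n, IsT (discr K) n → I n * I' n = span {(n : 𝓞 K)} := by
    intro n hn
    rw [hI, hI']
    dsimp only
    rw [← Finset.prod_mul_distrib,
      Finset.prod_congr rfl fun p hp => (hPP p (hgood n hn p hp)).2.2.1,
      Ideal.prod_span_singleton]
    congr 2
    rw [← Nat.cast_prod, Nat.prod_primeFactors_of_squarefree hn.1]
  have hnorm : ∀ n, IsT (discr K) n → absNorm (I n) = n := by
    intro n hn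
    rw [hI]
    dsimp only
    rw [map_prod, Finset.prod_congr rfl fun p hp => (hPP p (hgood n hn p hp)).1,
      Nat.prod_primeFactors_of_squarefree hn.1]
  have hnorm' : ∀ n, IsT (discr K) n → absNorm (I' n) = n := by
    intro n hn
    rw [hI']
    dsimp only
    rw [map_prod, Finset.prod_congr rfl fun p hp => (hPP p (hgood n hn p hp)).2.1,
      Nat.prod_primeFactors_of_squarefree hn.1]
  -- maximality
  have hmaxP : ∀ p, p.Prime ∧ p ≠ 2 ∧ jacobiSym (discr K) p = 1 → ∀ Q : Ideal (𝓞 K),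
      absNorm Q = p → Q.IsMaximal := by
    intro p hp Q hQ
    have h1 : Q.IsPrime := Ideal.isPrime_of_irreducible_absNorm (by rw [hQ]; exact hp.1)
    refine h1.isMaximal ?_
    rintro rfl
    rw [absNorm_bot] at hQ
    exact hp.1.ne_zero hQ.symm
  -- comparison
  have hsubset : ∀ n m, IsT (discr K) n → IsT (discr K) m → I' n * I m = I n * I' m →
      n.primeFactors ⊆ m.primeFactors := by
    intro n m hn hm heq p hp
    have hgp := hgood n hn p hp
    obtain ⟨a1, a2, a3, a4⟩ := hPP p hgp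
    have hmax := hmaxP p hgp (P p) a1
    have hprime : Prime (P p) := Ideal.prime_of_isPrime (hP0 p) hmax.isPrime
    have hdvd : P p ∣ I' n * I m := by
      rw [heq]
      exact (Finset.dvd_prod_of_mem P hp).mul_right _
    have hq : ∀ (q : ℕ) (hgq : q.Prime ∧ q ≠ 2 ∧ jacobiSym (discr K) q = 1) (Q : Ideal (𝓞 K)),
        absNorm Q = q → P p ∣ Q → P p = Q ∧ p = q := by
      intro q hgq Q hQ hPQ
      have hm' := hmaxP q hgq Q hQ
      have h1 : P p = Q := (hm'.eq_of_le hmax.ne_top (Ideal.dvd_iff_le.1 hPQ)).symm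
      exact ⟨h1, by rw [← a1, h1, hQ]⟩
    rcases hprime.dvd_or_dvd hdvd with h | h
    · exfalso
      obtain ⟨q, hqn, hq'⟩ := (Prime.dvd_finsetProd_iff hprime _).1 h
      have hgq := hgood n hn q hqn
      obtain ⟨h3, h4⟩ := hq q hgq (P' q) (hPP q hgq).2.1 hq'
      rw [← h4] at h3
      exact a4 h3
    · obtain ⟨q, hqm, hq'⟩ := (Prime.dvd_finsetProd_iff hprime _).1 h
      have hgq := hgood m hm q hqm
      obtain ⟨h3, h4⟩ := hq q hgq (P q) (hPP q hgq).1 hq'
      rw [h4]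
      exact hqm
  let J : ℕ → (Ideal (𝓞 K))⁰ := fun n => ⟨I n, mem_nonZeroDivisors_iff_ne_zero.2 (hI0 n)⟩
  let J' : ℕ → (Ideal (𝓞 K))⁰ := fun n => ⟨I' n, mem_nonZeroDivisors_iff_ne_zero.2 (hI'0 n)⟩
  have hclass : ∀ n ∈ TT (discr K) x, ∀ m ∈ TT (discr K) x,
      ClassGroup.mk0 (J n) ^ k = ClassGroup.mk0 (J m) ^ k → n = m := by
    intro n hn m hm heq
    unfold TT at hn hm
    rw [Finset.mem_filter, Finset.mem_Icc] at hn hm
    obtain ⟨⟨hn1, hnx⟩, hn⟩ := hn
    obtain ⟨⟨hm1, hmx⟩, hm⟩ := hm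
    have hone : ClassGroup.mk0 (J m) * ClassGroup.mk0 (J' m) = 1 := by
      rw [← map_mul, ClassGroup.mk0_eq_one_iff]
      show (I m * I' m).IsPrincipal
      rw [hmul m hm]
      exact ⟨⟨_, rfl⟩⟩
    have hprin : ((I n * I' m) ^ k).IsPrincipal := by
      have h1 : ClassGroup.mk0 ((J n * J' m) ^ k) = 1 := by
        rw [map_pow, map_mul, mul_pow, heq, ← mul_pow, hone, one_pow]
      rw [ClassGroup.mk0_eq_one_iff] at h1
      exact h1
    have hNk : absNorm ((I n * I' m) ^ k) = (n * m) ^ k := by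
      rw [map_pow, map_mul, hnorm n hn, hnorm' m hm]
    obtain ⟨a, ha⟩ := principal_int h2 hd _ hprin (by
      rw [hNk]
      refine lt_of_le_of_lt ?_ hx
      have h3 : (n * m) ^ k ≤ x ^ (2 * k) := by
        rw [pow_mul, pow_two]
        exact Nat.pow_le_pow_left (Nat.mul_le_mul hnx hmx) k
      have h4 : (((n * m) ^ k : ℕ) : ℤ) ≤ ((x ^ (2 * k) : ℕ) : ℤ) := by exact_mod_cast h3
      push_cast at h4 ⊢
      linarith)
    have ha2 : (a.natAbs : ℕ) ^ 2 = (n * m) ^ k := by
      rw [← hNk, ha, absNorm_span_singleton]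
      have := Algebra.norm_algebraMap (S := 𝓞 K) a
      rw [hr] at this
      have h3 : (Algebra.norm ℤ) ((a : ℤ) : 𝓞 K) = a ^ 2 := by simpa using this
      rw [h3, Int.natAbs_pow]
    have ha2' : (a : ℤ) ^ 2 = ((n : ℤ) * m) ^ k := by
      have : ((a.natAbs ^ 2 : ℕ) : ℤ) = (((n * m) ^ k : ℕ) : ℤ) := by exact_mod_cast ha2
      push_cast at this
      rwa [sq_abs] at this
    have hprod : (I' n * I m) ^ k * (I n * I' m) ^ k = span {(a : 𝓞 K)} * span {(a : 𝓞 K)} := by
      rw [← mul_pow]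
      have h3 : I' n * I m * (I n * I' m) = (I n * I' n) * (I m * I' m) := by ring
      rw [h3, hmul n hn, hmul m hm, Ideal.span_singleton_mul_span_singleton,
        Ideal.span_singleton_pow, Ideal.span_singleton_mul_span_singleton]
      congr 2
      have h5 : ((a ^ 2 : ℤ) : 𝓞 K) = ((((n : ℤ) * m) ^ k : ℤ) : 𝓞 K) := by rw [ha2']
      push_cast at h5
      rw [← h5]
      ring
    rw [ha] at hprod
    have hane : span {(a : 𝓞 K)} ≠ (0 : Ideal (𝓞 K)) := by
      rw [← ha]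
      exact pow_ne_zero k (mul_ne_zero (hI0 n) (hI'0 m))
    have hk' : (I' n * I m) ^ k = (I n * I' m) ^ k := by
      rw [ha]
      exact mul_right_cancel₀ hane hprod
    have hfin : I' n * I m = I n * I' m := pow_left_injective (by omega : k ≠ 0) hk'
    have s1 := hsubset n m hn hm hfin
    have s2 := hsubset m n hm hn (by rw [mul_comm, ← hfin, mul_comm])
    have s3 := Finset.Subset.antisymm s1 s2
    rw [← Nat.prod_primeFactors_of_squarefree hn.1, s3, Nat.prod_primeFactors_of_squarefree hm.1]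
  have hinj : Function.Injective (fun w : {c : ClassGroup (𝓞 K) // c ^ k = 1} ×
      {n : ℕ // n ∈ TT (discr K) x} => w.1.1 * ClassGroup.mk0 (J w.2.1)) := by
    rintro ⟨⟨c, hc⟩, ⟨n, hn⟩⟩ ⟨⟨c', hc'⟩, ⟨m, hm⟩⟩ h
    dsimp only at h
    have h1 : n = m := by
      apply hclass n hn m hm
      have h3 := congrArg (· ^ k) h
      simp only [mul_pow, hc, hc', one_mul] at h3
      exact h3
    subst h1
    have h3 := mul_right_cancel h
    subst h3
    rfl
  have hcard := Nat.card_le_card_of_injective _ hinj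
  rw [Nat.card_prod] at hcard
  have h4 : Nat.card {n : ℕ // n ∈ TT (discr K) x} = (TT (discr K) x).card := by
    rw [Nat.card_eq_fintype_card, Fintype.card_coe]
  rwa [h4] at hcard

end Pool.Agent.Work.MP_e0c7e8_nt.Sm
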