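import Pool.Agent.Work.MP_e0c7e8_nt.Idl

/-!
# Quadratic fields: the square root of the discriminant, splitting of primes
-/

set_option autoImplicit false

namespace Pool.Agent.Work.MP_e0c7e8_nt.Sm

open NumberField Ideal

variable {K : Type} [Field K] [NumberField K]

theorem discr_index (h2 : Module.finrank ℚ K = 2) (α : 𝓞 K) :
    ∃ k : ℤ, Algebra.trace ℤ (𝓞 K) α ^ 2 - 4 * Algebra.norm ℤ α = k ^ 2 * discr K := by
  have hr : Module.finrank ℤ (𝓞 K) = 2 := by rw [RingOfIntegers.rank, h2]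
  let b : Module.Basis (Fin 2) ℤ (𝓞 K) := Module.finBasisOfFinrankEq ℤ (𝓞 K) hr
  obtain ⟨hD, hCH⟩ := discr_pair h2 α
  have hv : Algebra.discr ℤ ![(1 : 𝓞 K), α] = (b.toMatrix ![(1 : 𝓞 K), α]).det ^ 2 * discr K := by
    rw [← discr_eq_discr K b, ← Algebra.discr_of_matrix_vecMul]
    congr 1
    funext j
    rw [Matrix.vecMul, dotProduct]
    rw [← b.sum_toMatrix_smul_self ![(1 : 𝓞 K), α] j]
    refine Finset.sum_congr rfl fun i _ => ?_
    rw [Matrix.map_apply, Algebra.smul_def, mul_comm]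
  exact ⟨_, by rw [← hD, hv]⟩

theorem index_ne_zero (h2 : Module.finrank ℚ K = 2) (α : 𝓞 K) (hα : ∀ m : ℤ, α ≠ (m : 𝓞 K))
    (k : ℤ) (hk : Algebra.trace ℤ (𝓞 K) α ^ 2 - 4 * Algebra.norm ℤ α = k ^ 2 * discr K) :
    k ≠ 0 := by
  obtain ⟨_, hCH⟩ := discr_pair h2 α
  set t := Algebra.trace ℤ (𝓞 K) α with ht
  set n := Algebra.norm ℤ α with hn
  rintro rfl
  have h4 : t ^ 2 = 4 * n := by linarith
  have hsq : (2 * α - (t : 𝓞 K)) ^ 2 = 0 := by
    have h5 : ((t : 𝓞 K)) ^ 2 = 4 * (n : 𝓞 K) := by exact_mod_cast congrArg (Int.cast) h4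
    rw [zsmul_eq_mul, zsmul_eq_mul, mul_one] at hCH
    linear_combination 4 * hCH + h5
  have h6 : 2 * α = (t : 𝓞 K) := by
    have := pow_eq_zero_iff (two_ne_zero) |>.mp hsq
    linear_combination this
  have h7 : Even t := by
    have : Even (t ^ 2) := ⟨2 * n, by rw [h4]; ring⟩
    exact (Int.even_pow' two_ne_zero).mp this
  obtain ⟨s, hs⟩ := h7
  apply hα s
  have h8 : (2 : 𝓞 K) * α = 2 * (s : 𝓞 K) := by
    rw [h6, hs]
    push_cast
    ring
  exact mul_left_cancel₀ two_ne_zero h8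

theorem exists_not_int (h2 : Module.finrank ℚ K = 2) : ∃ α : 𝓞 K, ∀ m : ℤ, α ≠ (m : 𝓞 K) := by
  have hr : Module.finrank ℤ (𝓞 K) = 2 := by rw [RingOfIntegers.rank, h2]
  let b : Module.Basis (Fin 2) ℤ (𝓞 K) := Module.finBasisOfFinrankEq ℤ (𝓞 K) hr
  by_contra hcon
  push Not at hcon
  obtain ⟨m0, h0⟩ := hcon (b 0)
  obtain ⟨m1, h1⟩ := hcon (b 1)
  have hli := b.linearIndependent
  rw [Fintype.linearIndependent_iff] at hli
  have h3 := hli ![m1, -m0] (by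
    rw [Fin.sum_univ_two]
    simp only [Matrix.cons_val_zero, Matrix.cons_val_one, h0, h1, zsmul_eq_mul]
    push_cast
    ring) 1
  simp only [Matrix.cons_val_one] at h3
  have h4 : m0 = 0 := by simpa using h3
  rw [h4, Int.cast_zero] at h0
  exact b.ne_zero 0 h0

/-- division by an integer -/
theorem exists_div (δ : 𝓞 K) (e k : ℤ) (hk : k ≠ 0) (h : δ ^ 2 = ((k ^ 2 * e : ℤ) : 𝓞 K)) :
    ∃ w : 𝓞 K, (k : 𝓞 K) * w = δ ∧ w ^ 2 = (e : 𝓞 K) := by
  have hkK : (k : K) ≠ 0 := by exact_mod_cast hk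
  have h1 : ((δ : K) / (k : K)) ^ 2 = (e : K) := by
    have h2 : ((δ : K)) ^ 2 = ((k ^ 2 * e : ℤ) : K) := by
      have := congrArg (algebraMap (𝓞 K) K) h
      rw [map_pow, map_intCast] at this
      exact this
    rw [div_pow, h2]
    push_cast
    field_simp
  have h3 : IsIntegral ℤ ((δ : K) / (k : K)) := by
    apply IsIntegral.of_pow (n := 2) (by norm_num)
    rw [h1]
    exact isIntegral_algebraMap (R := ℤ) (A := K) (x := e)
  obtain ⟨w, hw⟩ : ∃ w : 𝓞 K, (w : K) = (δ : K) / (k : K) := ⟨⟨(δ : K) / (k : K), h3⟩, rfl⟩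
  have hw' : algebraMap (𝓞 K) K w = algebraMap (𝓞 K) K δ / (k : K) := hw
  refine ⟨w, ?_, ?_⟩
  · apply RingOfIntegers.coe_injective
    rw [map_mul, map_intCast, hw']
    field_simp
  · apply RingOfIntegers.coe_injective
    rw [map_pow, map_intCast, hw']
    exact h1

/-- the square root of the discriminant -/
theorem exists_sqrt (h2 : Module.finrank ℚ K = 2) :
    ∃ δ : 𝓞 K, δ ^ 2 = ((discr K : ℤ) : 𝓞 K) := by
  obtain ⟨α, hα⟩ := exists_not_int h2
  obtain ⟨k, hk⟩ := discr_index h2 α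
  have hk0 := index_ne_zero h2 α hα k hk
  obtain ⟨_, hCH⟩ := discr_pair h2 α
  set t := Algebra.trace ℤ (𝓞 K) α with ht
  set n := Algebra.norm ℤ α with hn
  have h1 : (2 * α - (t : 𝓞 K)) ^ 2 = ((k ^ 2 * discr K : ℤ) : 𝓞 K) := by
    rw [← hk]
    rw [zsmul_eq_mul, zsmul_eq_mul, mul_one] at hCH
    push_cast
    linear_combination 4 * hCH
  obtain ⟨w, _, hw⟩ := exists_div _ _ k hk0 h1
  exact ⟨w, hw⟩

theorem tr_of_sq (h2 : Module.finrank ℚ K = 2) (w : 𝓞 K) (e : ℤ) (he : e < 0)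
    (hw : w ^ 2 = (e : 𝓞 K)) : Algebra.trace ℤ (𝓞 K) w = 0 ∧ Algebra.norm ℤ w = -e := by
  obtain ⟨_, hCH⟩ := discr_pair h2 w
  set t := Algebra.trace ℤ (𝓞 K) w with ht
  set n := Algebra.norm ℤ w with hn
  rw [zsmul_eq_mul, zsmul_eq_mul, mul_one] at hCH
  have h1 : (t : 𝓞 K) * w = ((e + n : ℤ) : 𝓞 K) := by
    push_cast
    linear_combination hw - hCH
  have h3 : ((t ^ 2 * e : ℤ) : 𝓞 K) = (((e + n) ^ 2 : ℤ) : 𝓞 K) := by
    have := congrArg (· ^ 2) h1
    simp only [mul_pow] at this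
    push_cast at this ⊢
    linear_combination this - (t : 𝓞 K) ^ 2 * hw
  have h4 : t ^ 2 * e = (e + n) ^ 2 := by exact_mod_cast h3
  have h5 : t = 0 := by
    by_contra h
    have : 0 < t ^ 2 := by positivity
    nlinarith [sq_nonneg (e + n)]
  refine ⟨h5, ?_⟩
  rw [h5] at h4
  have : (e + n) ^ 2 = 0 := by rw [← h4]; ring
  have := pow_eq_zero_iff (two_ne_zero) |>.mp this
  linarith

/-- square divisors of the discriminant -/
theorem sq_dvd (h2 : Module.finrank ℚ K = 2) (hd : discr K < 0) (g : ℕ)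
    (hg : ((g : ℤ) ^ 2) ∣ discr K) : g ≤ 2 := by
  obtain ⟨δ, hδ⟩ := exists_sqrt h2
  obtain ⟨e, he⟩ := hg
  have hg0 : (g : ℤ) ≠ 0 := by
    intro h
    rw [h] at he
    rw [he] at hd
    norm_num at hd
  have hgp : 0 < (g : ℤ) ^ 2 := by positivity
  have he0 : e < 0 := by
    by_contra h
    push Not at h
    have : 0 ≤ discr K := by rw [he]; positivity
    omega
  obtain ⟨w, _, hw⟩ := exists_div δ e g hg0 (by rw [hδ, he])
  obtain ⟨ht, hn⟩ := tr_of_sq h2 w e he0 hw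
  obtain ⟨k, hk⟩ := discr_index h2 w
  rw [ht, hn, he] at hk
  have h1 : 4 * e = (k * g) ^ 2 * e := by linear_combination hk
  have h3 : (k * g) ^ 2 = 4 := by
    have := mul_right_cancel₀ he0.ne h1
    linarith
  have h4 : (g : ℤ) ∣ 2 := by
    have h5 : (k * g) ^ 2 = 2 ^ 2 := by rw [h3]; norm_num
    rcases sq_eq_sq_iff_eq_or_eq_neg.1 h5 with h | h
    · exact ⟨k, by linarith⟩
    · exact ⟨-k, by linarith⟩
  have := Int.le_of_dvd (by norm_num) h4
  exact_mod_cast this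

theorem trace_int (h2 : Module.finrank ℚ K = 2) (s : ℤ) :
    Algebra.trace ℤ (𝓞 K) (s : 𝓞 K) = 2 * s := by
  have hr : Module.finrank ℤ (𝓞 K) = 2 := by rw [RingOfIntegers.rank, h2]
  have := Algebra.trace_algebraMap (R := ℤ) (S := 𝓞 K) s
  rw [hr] at this
  simpa using this

/-- `δ + s` is not divisible by `p` -/
theorem not_mem_span (h2 : Module.finrank ℚ K = 2) (p : ℕ) (hp : p.Prime) (hp2 : p ≠ 2) (δ : 𝓞 K)
    (ht : Algebra.trace ℤ (𝓞 K) δ = 0) (s : ℤ) (hs : ¬ (p : ℤ) ∣ s) :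
    δ + (s : 𝓞 K) ∉ span {(p : 𝓞 K)} := by
  intro h
  rw [Ideal.mem_span_singleton] at h
  obtain ⟨w, hw⟩ := h
  have h1 := congrArg (Algebra.trace ℤ (𝓞 K)) hw
  have h3 : (p : 𝓞 K) * w = (p : ℤ) • w := by rw [zsmul_eq_mul]; push_cast; rfl
  rw [map_add, ht, zero_add, trace_int h2, h3, map_zsmul, smul_eq_mul] at h1
  have h4 : (p : ℤ) ∣ 2 * s := ⟨_, h1⟩
  have hpp : Prime (p : ℤ) := Nat.prime_iff_prime_int.1 hp
  rcases hpp.dvd_or_dvd h4 with h5 | h5
  · have := Int.le_of_dvd (by norm_num) h5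
    have := hp.two_le
    omega
  · exact hs h5

/-- splitting of primes -/
theorem split_prime (h2 : Module.finrank ℚ K = 2) (hd : discr K < 0) (p : ℕ) [Fact p.Prime]
    (hp2 : p ≠ 2) (hc : legendreSym p (discr K) = 1) :
    ∃ P P' : Ideal (𝓞 K), absNorm P = p ∧ absNorm P' = p ∧ P * P' = span {(p : 𝓞 K)} ∧
      P ≠ P' := by
  have hp := (Fact.out : p.Prime)
  have hpp : Prime (p : ℤ) := Nat.prime_iff_prime_int.1 hp
  have hr : Module.finrank ℤ (𝓞 K) = 2 := by rw [RingOfIntegers.rank, h2]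
  obtain ⟨δ, hδ⟩ := exists_sqrt h2
  obtain ⟨ht, -⟩ := tr_of_sq h2 δ _ hd hδ
  have hne : ((discr K : ℤ) : ZMod p) ≠ 0 := by
    intro h
    rw [(legendreSym.eq_zero_iff p _).2 h] at hc
    exact absurd hc (by norm_num)
  obtain ⟨x, hx⟩ := (legendreSym.eq_one_iff p hne).1 hc
  obtain ⟨s, rfl⟩ := ZMod.intCast_surjective x
  have hdvd : (p : ℤ) ∣ s * s - discr K := by
    rw [← ZMod.intCast_eq_intCast_iff_dvd_sub]
    rw [hx]
    push_cast
    rfl
  have hs : ¬ (p : ℤ) ∣ s := by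
    intro h
    apply hne
    rw [hx, (ZMod.intCast_zmod_eq_zero_iff_dvd s p).2 h, mul_zero]
  obtain ⟨c, hc'⟩ := hdvd
  have hδs : (δ - (s : 𝓞 K)) * (δ + (s : 𝓞 K)) = (p : 𝓞 K) * ((-c : ℤ) : 𝓞 K) := by
    have h3 : ((s * s - discr K : ℤ) : 𝓞 K) = (((p : ℤ) * c : ℤ) : 𝓞 K) := by rw [hc']
    push_cast at h3 ⊢
    linear_combination hδ - h3
  set P : Ideal (𝓞 K) := span {(p : 𝓞 K), δ - (s : 𝓞 K)} with hP
  set P' : Ideal (𝓞 K) := span {(p : 𝓞 K), δ + (s : 𝓞 K)} with hP'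
  have hcop : IsCoprime (p : ℤ) (2 * s) := by
    rw [Prime.coprime_iff_not_dvd hpp]
    intro h
    rcases hpp.dvd_or_dvd h with h5 | h5
    · have := Int.le_of_dvd (by norm_num) h5
      have := hp.two_le
      omega
    · exact hs h5
  obtain ⟨u, v, huv⟩ := hcop
  have huv' : (u : 𝓞 K) * p + v * (2 * s) = 1 := by exact_mod_cast congrArg (Int.cast : ℤ → 𝓞 K) huv
  have hmul : P * P' = span {(p : 𝓞 K)} := by
    rw [hP, hP', Ideal.span_pair_mul_span_pair]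
    apply le_antisymm
    · rw [Ideal.span_le]
      intro z hz
      simp only [Set.mem_insert_iff, Set.mem_singleton_iff] at hz
      rw [SetLike.mem_coe, Ideal.mem_span_singleton]
      rcases hz with rfl | rfl | rfl | rfl
      · exact Dvd.intro _ rfl
      · exact Dvd.intro _ rfl
      · exact Dvd.intro_left _ rfl
      · rw [hδs]; exact Dvd.intro _ rfl
    · rw [span_singleton_le_iff_mem]
      set I := span {(p : 𝓞 K) * p, (p : 𝓞 K) * (δ + s), (δ - s) * p, (δ - s) * (δ + s)} with hI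
      have m1 : (p : 𝓞 K) * p ∈ I := subset_span (by simp)
      have m2 : (p : 𝓞 K) * (δ + s) ∈ I := subset_span (by simp)
      have m3 : (δ - s) * (p : 𝓞 K) ∈ I := subset_span (by simp)
      have h4 : (p : 𝓞 K) = u * ((p : 𝓞 K) * p) + v * ((p : 𝓞 K) * (δ + s) - (δ - s) * p) := by
        linear_combination -(p : 𝓞 K) * huv'
      rw [h4]
      exact I.add_mem (I.mul_mem_left _ m1) (I.mul_mem_left _ (I.sub_mem m2 m3))
  have hnp : absNorm (span {(p : 𝓞 K)}) = p ^ 2 := by rw [absNorm_span_natCast, hr]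
  have hN : absNorm P * absNorm P' = p ^ 2 := by rw [← map_mul, hmul, hnp]
  have hP1 : absNorm P ≠ 1 := by
    intro h
    rw [absNorm_eq_one_iff] at h
    rw [h, ← Ideal.one_eq_top, one_mul] at hmul
    have : δ + (s : 𝓞 K) ∈ span {(p : 𝓞 K)} := by
      rw [← hmul, hP']
      exact subset_span (by simp)
    exact not_mem_span h2 p hp hp2 δ ht s hs this
  have hP'1 : absNorm P' ≠ 1 := by
    intro h
    rw [absNorm_eq_one_iff] at h
    rw [h, ← Ideal.one_eq_top, mul_one] at hmul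
    have : δ + ((-s : ℤ) : 𝓞 K) ∈ span {(p : 𝓞 K)} := by
      rw [← hmul, hP]
      push_cast
      rw [← sub_eq_add_neg]
      exact subset_span (by simp)
    exact not_mem_span h2 p hp hp2 δ ht (-s) (by rwa [dvd_neg]) this
  have hPd : absNorm P ∣ p ^ 2 := Dvd.intro _ hN
  obtain ⟨i, hi, hi'⟩ := (Nat.dvd_prime_pow hp).mp hPd
  have hi1 : i = 1 := by
    rcases (by omega : i = 0 ∨ i = 1 ∨ i = 2) with rfl | rfl | rfl
    · exact absurd (by simpa using hi') hP1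
    · rfl
    · exfalso
      rw [hi'] at hN
      have : 0 < p ^ 2 := pow_pos hp.pos 2
      exact hP'1 (Nat.eq_of_mul_eq_mul_left this (by rw [hN, mul_one]))
  rw [hi1, pow_one] at hi'
  have hP'p : absNorm P' = p := by
    rw [hi', pow_two] at hN
    exact Nat.eq_of_mul_eq_mul_left hp.pos hN
  refine ⟨P, P', hi', hP'p, hmul, ?_⟩
  intro heq
  apply hP1
  rw [absNorm_eq_one_iff, Ideal.eq_top_iff_one]
  have m1 : (p : 𝓞 K) ∈ P := subset_span (by simp)
  have m2 : δ - (s : 𝓞 K) ∈ P := subset_span (by simp)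
  have m3 : δ + (s : 𝓞 K) ∈ P := by rw [heq]; exact subset_span (by simp)
  rw [← huv']
  have h4 : (v : 𝓞 K) * (2 * s) = v * ((δ + s) - (δ - s)) := by ring
  rw [h4]
  exact P.add_mem (P.mul_mem_left _ m1) (P.mul_mem_left _ (P.sub_mem m3 m2))

/-- no ideals of norm `p` over inert primes -/
theorem no_norm (h2 : Module.finrank ℚ K = 2) (p : ℕ) [Fact p.Prime]
    (P : Ideal (𝓞 K)) (hP : absNorm P = p) : legendreSym p (discr K) ≠ -1 := by
  have hp := (Fact.out : p.Prime)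
  obtain ⟨δ, hδ⟩ := exists_sqrt h2
  rw [Ne, legendreSym.eq_neg_one_iff, not_not]
  have hcard : Nat.card (𝓞 K ⧸ P) = p := by rw [← hP]; rfl
  have hfin : Finite (𝓞 K ⧸ P) := Nat.finite_of_card_ne_zero (by rw [hcard]; exact hp.ne_zero)
  have := Fintype.ofFinite (𝓞 K ⧸ P)
  let φ := ZMod.ringEquivOfPrime (𝓞 K ⧸ P) hp (by rw [← hcard, Nat.card_eq_fintype_card])
  refine ⟨φ.symm (Ideal.Quotient.mk P δ), ?_⟩
  rw [← map_mul, ← map_mul, ← pow_two, hδ, map_intCast, map_intCast]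

/-- ramified primes -/
theorem ramified (h2 : Module.finrank ℚ K = 2) (hd : discr K < 0) (p : ℕ) (hp : p.Prime)
    (hp2 : p ≠ 2) (hpd : (p : ℤ) ∣ discr K) (P P' : Ideal (𝓞 K)) (hP : absNorm P = p)
    (hP' : absNorm P' = p) : P = P' := by
  by_contra hne
  have hr : Module.finrank ℤ (𝓞 K) = 2 := by rw [RingOfIntegers.rank, h2]
  obtain ⟨δ, hδ⟩ := exists_sqrt h2
  obtain ⟨-, hn⟩ := tr_of_sq h2 δ _ hd hδ
  have hprime : ∀ Q : Ideal (𝓞 K), absNorm Q = p → Q.IsMaximal ∧ δ ∈ Q ∧ (p : 𝓞 K) ∈ Q := by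
    intro Q hQ
    have h1 : Q.IsPrime := Ideal.isPrime_of_irreducible_absNorm (by rw [hQ]; exact hp)
    have h0 : Q ≠ ⊥ := by
      rintro rfl
      rw [absNorm_bot] at hQ
      exact hp.ne_zero hQ.symm
    have hpQ : (p : 𝓞 K) ∈ Q := by rw [← hQ]; exact absNorm_mem Q
    refine ⟨h1.isMaximal h0, ?_, hpQ⟩
    apply h1.mem_of_pow_mem 2
    rw [hδ]
    obtain ⟨c, hc⟩ := hpd
    rw [hc]
    push_cast
    exact Q.mul_mem_right _ hpQ
  obtain ⟨a1, a2, a3⟩ := hprime P hP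
  obtain ⟨b1, b2, b3⟩ := hprime P' hP'
  have hcop : IsCoprime P P' := Ideal.isCoprime_iff_sup_eq.2 (a1.coprime_of_ne b1 hne)
  have hinf : P ⊓ P' = P * P' := (Ideal.mul_eq_inf_of_isCoprime hcop).symm
  have hδm : δ ∈ P * P' := by rw [← hinf]; exact ⟨a2, b2⟩
  have hpm : (p : 𝓞 K) ∈ P * P' := by rw [← hinf]; exact ⟨a3, b3⟩
  obtain ⟨J, hJ⟩ := Ideal.dvd_iff_le.mpr ((span_singleton_le_iff_mem (P * P')).2 hpm)
  have hnp : absNorm (span {(p : 𝓞 K)}) = p ^ 2 := by rw [absNorm_span_natCast, hr]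
  have hJ1 : absNorm J = 1 := by
    rw [hJ, map_mul, map_mul, hP, hP', ← pow_two] at hnp
    have : 0 < p ^ 2 := pow_pos hp.pos 2
    exact Nat.eq_of_mul_eq_mul_left this (by rw [hnp, mul_one])
  rw [absNorm_eq_one_iff] at hJ1
  rw [hJ1, ← Ideal.one_eq_top, mul_one] at hJ
  rw [← hJ, Ideal.mem_span_singleton] at hδm
  obtain ⟨w, hw⟩ := hδm
  have h3 : (Algebra.norm ℤ) δ = (p : ℤ) ^ 2 * (Algebra.norm ℤ) w := by
    rw [hw, map_mul]
    congr 1
    have := Algebra.norm_algebraMap (S := 𝓞 K) (p : ℤ)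
    rw [hr] at this
    simpa using this
  rw [hn] at h3
  have h4 := sq_dvd h2 hd p ⟨-(Algebra.norm ℤ) w, by linear_combination -h3⟩
  have := hp.two_le
  omega

end Pool.Agent.Work.MP_e0c7e8_nt.Sm
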