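import Mathlib

/-!
# The hyperbola method for odd numbers
-/

set_option autoImplicit false

namespace Pool.Agent.Work.MP_e0c7e8_nt.Sm

open Finset

/-- odd numbers up to `z` -/
def Od (z : ℕ) : Finset ℕ := (Icc 1 z).filter fun n => Odd n

theorem mem_Od {z n : ℕ} : n ∈ Od z ↔ n ≤ z ∧ Odd n := by
  unfold Od
  rw [Finset.mem_filter, Finset.mem_Icc]
  constructor
  · rintro ⟨⟨_, h⟩, ho⟩
    exact ⟨h, ho⟩
  · rintro ⟨h, ho⟩
    exact ⟨⟨ho.pos, h⟩, ho⟩

theorem card_Od (z : ℕ) : (Od z).card = (z + 1) / 2 := by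
  unfold Od
  rw [Finset.card_filter]
  induction z with
  | zero => simp
  | succ z ih =>
    rw [Finset.sum_Icc_succ_top (by omega), ih]
    by_cases h : Odd (z + 1)
    · rw [if_pos h]
      rw [Nat.odd_iff] at h
      omega
    · rw [if_neg h]
      rw [Nat.odd_iff] at h
      omega

theorem card_Od_div (y a : ℕ) (ha : 1 ≤ a) :
    |((Od (y / a)).card : ℝ) - y / 2 * (1 / a)| ≤ 1 := by
  have ha0 : (0 : ℝ) < a := by exact_mod_cast ha
  rw [card_Od]
  set q := y / a with hq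
  have h1 : (q : ℝ) ≤ y / a := Nat.cast_div_le
  have h2 : (y : ℝ) / a < q + 1 := by
    rw [div_lt_iff₀ ha0]
    have : y < (q + 1) * a := by
      rw [mul_comm]
      exact Nat.lt_mul_div_succ y ha
    exact_mod_cast this
  have h3 : (((q + 1) / 2 : ℕ) : ℝ) ≤ (q + 1) / 2 := by
    have := Nat.cast_div_le (m := q + 1) (n := 2) (α := ℝ)
    push_cast at this
    exact this
  have h4 : (q : ℝ) / 2 ≤ (((q + 1) / 2 : ℕ) : ℝ) := by
    have h5 : q ≤ 2 * ((q + 1) / 2) := by omega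
    have h6 : (q : ℝ) ≤ 2 * (((q + 1) / 2 : ℕ) : ℝ) := by exact_mod_cast h5
    linarith
  have h7 : (y : ℝ) / 2 * (1 / a) = y / a / 2 := by ring
  rw [h7, abs_le]
  constructor <;> linarith

theorem dsum (c : ℕ → ℝ) (y : ℕ) :
    ∑ m ∈ Od y, ∑ a ∈ m.divisors, c a = ∑ a ∈ Od y, c a * ((Od (y / a)).card : ℝ) := by
  have h1 : ∀ m ∈ Od y, ∑ a ∈ m.divisors, c a = ∑ a ∈ Od y, if a ∣ m then c a else 0 := by
    intro m hm
    rw [mem_Od] at hm
    rw [← Finset.sum_filter]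
    refine Finset.sum_congr ?_ fun _ _ => rfl
    ext a
    rw [Nat.mem_divisors, Finset.mem_filter, mem_Od]
    constructor
    · rintro ⟨h, _⟩
      exact ⟨⟨(Nat.le_of_dvd hm.2.pos h).trans hm.1, hm.2.of_dvd_nat h⟩, h⟩
    · rintro ⟨_, h⟩
      exact ⟨h, hm.2.pos.ne'⟩
  rw [Finset.sum_congr rfl h1, Finset.sum_comm]
  refine Finset.sum_congr rfl fun a ha => ?_
  rw [mem_Od] at ha
  rw [← Finset.sum_filter, Finset.sum_const, nsmul_eq_mul, mul_comm]
  congr 2
  symm
  refine Finset.card_nbij' (fun b => a * b) (fun m => m / a) ?_ ?_ ?_ ?_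
  · intro b hb
    rw [Finset.mem_coe, mem_Od] at hb
    rw [Finset.mem_coe, Finset.mem_filter, mem_Od]
    refine ⟨⟨?_, ha.2.mul hb.2⟩, Dvd.intro _ rfl⟩
    show a * b ≤ y
    rw [mul_comm]
    exact (Nat.le_div_iff_mul_le ha.2.pos).1 hb.1
  · intro m hm
    rw [Finset.mem_coe, Finset.mem_filter, mem_Od] at hm
    rw [Finset.mem_coe, mem_Od]
    refine ⟨Nat.div_le_div_right hm.1.1, ?_⟩
    obtain ⟨b, rfl⟩ := hm.2
    show Odd (a * b / a)
    rw [Nat.mul_div_cancel_left _ ha.2.pos]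
    exact (Nat.odd_mul.1 hm.1.2).2
  · intro b _
    exact Nat.mul_div_cancel_left _ ha.2.pos
  · intro m hm
    rw [Finset.mem_coe, Finset.mem_filter] at hm
    exact Nat.mul_div_cancel' hm.2

theorem hyper (c : ℕ → ℝ) (hc : ∀ a, |c a| ≤ 1) (y A : ℕ) (hy : 1 ≤ y) (E : ℝ) (hE : 0 ≤ E)
    (h : ∀ N : ℕ, A < N → N ≤ y → |∑ a ∈ (Ioc A N).filter (fun n => Odd n), c a| ≤ E * N) :
    |∑ a ∈ Od y, c a * ((Od (y / a)).card : ℝ) - y / 2 * ∑ a ∈ Od A, c a * (1 / a)| ≤
      A + E * (y * (1 + Real.log y)) := by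
  classical
  have hsplit : ∑ a ∈ Od y, c a * ((Od (y / a)).card : ℝ) =
      ∑ a ∈ (Od y).filter (fun a => a ≤ A), c a * ((Od (y / a)).card : ℝ) +
      ∑ a ∈ (Od y).filter (fun a => ¬ a ≤ A), c a * ((Od (y / a)).card : ℝ) :=
    (Finset.sum_filter_add_sum_filter_not _ _ _).symm
  have hS1 : ∑ a ∈ (Od y).filter (fun a => a ≤ A), c a * ((Od (y / a)).card : ℝ) =
      ∑ a ∈ Od A, c a * ((Od (y / a)).card : ℝ) := by
    apply Finset.sum_subset
    · intro a ha
      rw [Finset.mem_filter, mem_Od] at ha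
      rw [mem_Od]
      exact ⟨ha.2, ha.1.2⟩
    · intro a ha hna
      rw [mem_Od] at ha
      rw [Finset.mem_filter, mem_Od] at hna
      have h1 : y < a := by
        by_contra h2
        exact hna ⟨⟨not_lt.1 h2, ha.2⟩, ha.1⟩
      rw [Nat.div_eq_of_lt h1, card_Od]
      simp
  have hA : |∑ a ∈ Od A, c a * ((Od (y / a)).card : ℝ) - y / 2 * ∑ a ∈ Od A, c a * (1 / a)| ≤ A := by
    rw [Finset.mul_sum, ← Finset.sum_sub_distrib]
    refine (Finset.abs_sum_le_sum_abs _ _).trans ?_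
    have h1 : ∀ a ∈ Od A, |c a * ((Od (y / a)).card : ℝ) - y / 2 * (c a * (1 / a))| ≤ 1 := by
      intro a ha
      rw [mem_Od] at ha
      have h2 := card_Od_div y a ha.2.pos
      have h3 : c a * ((Od (y / a)).card : ℝ) - y / 2 * (c a * (1 / a)) =
          c a * (((Od (y / a)).card : ℝ) - y / 2 * (1 / a)) := by ring
      rw [h3, abs_mul]
      calc |c a| * |((Od (y / a)).card : ℝ) - y / 2 * (1 / a)| ≤ 1 * 1 :=
            mul_le_mul (hc a) h2 (abs_nonneg _) zero_le_one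
        _ = 1 := one_mul 1
    refine (Finset.sum_le_sum h1).trans ?_
    rw [Finset.sum_const, nsmul_eq_mul, mul_one, card_Od]
    have : (A + 1) / 2 ≤ A := by omega
    exact_mod_cast this
  have hS2 : ∑ a ∈ (Od y).filter (fun a => ¬ a ≤ A), c a * ((Od (y / a)).card : ℝ) =
      ∑ b ∈ Od y, ∑ a ∈ (Ioc A (y / b)).filter (fun n => Odd n), c a := by
    have h1 : ∀ a ∈ (Od y).filter (fun a => ¬ a ≤ A), c a * ((Od (y / a)).card : ℝ) =
        ∑ b ∈ Od y, if a * b ≤ y then c a else 0 := by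
      intro a ha
      rw [Finset.mem_filter, mem_Od] at ha
      rw [← Finset.sum_filter, Finset.sum_const, nsmul_eq_mul, mul_comm]
      congr 2
      congr 1
      ext b
      rw [Finset.mem_filter, mem_Od, mem_Od, Nat.le_div_iff_mul_le ha.1.2.pos]
      constructor
      · rintro ⟨h2, h3⟩
        refine ⟨⟨?_, h3⟩, by rw [mul_comm]; exact h2⟩
        have : b * 1 ≤ b * a := Nat.mul_le_mul_left b ha.1.2.pos
        omega
      · rintro ⟨⟨_, h3⟩, h4⟩
        exact ⟨by rw [mul_comm]; exact h4, h3⟩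
    rw [Finset.sum_congr rfl h1, Finset.sum_comm]
    refine Finset.sum_congr rfl fun b hb => ?_
    rw [mem_Od] at hb
    rw [← Finset.sum_filter]
    refine Finset.sum_congr ?_ fun _ _ => rfl
    ext a
    rw [Finset.mem_filter, Finset.mem_filter, Finset.mem_filter, mem_Od, Finset.mem_Ioc,
      Nat.le_div_iff_mul_le hb.2.pos]
    constructor
    · rintro ⟨⟨⟨_, h3⟩, h4⟩, h5⟩
      exact ⟨⟨not_le.1 h4, h5⟩, h3⟩
    · rintro ⟨⟨h3, h4⟩, h5⟩
      have : a * 1 ≤ a * b := Nat.mul_le_mul_left a hb.2.pos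
      exact ⟨⟨⟨by omega, h5⟩, not_le.2 h3⟩, h4⟩
  have hB : |∑ b ∈ Od y, ∑ a ∈ (Ioc A (y / b)).filter (fun n => Odd n), c a| ≤
      E * (y * (1 + Real.log y)) := by
    refine (Finset.abs_sum_le_sum_abs _ _).trans ?_
    have h1 : ∀ b ∈ Od y, |∑ a ∈ (Ioc A (y / b)).filter (fun n => Odd n), c a| ≤
        E * (y * (1 / b)) := by
      intro b hb
      rw [mem_Od] at hb
      have hb0 : (0 : ℝ) < b := by exact_mod_cast hb.2.pos
      by_cases hN : A < y / b
      · refine (h (y / b) hN (Nat.div_le_self y b)).trans ?_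
        refine mul_le_mul_of_nonneg_left ?_ hE
        rw [mul_one_div]
        exact Nat.cast_div_le
      · rw [Finset.Ioc_eq_empty hN, Finset.filter_empty, Finset.sum_empty, abs_zero]
        positivity
    refine (Finset.sum_le_sum h1).trans ?_
    rw [← Finset.mul_sum, ← Finset.mul_sum]
    refine mul_le_mul_of_nonneg_left ?_ hE
    refine mul_le_mul_of_nonneg_left ?_ (Nat.cast_nonneg y)
    have h2 : ∑ b ∈ Od y, (1 : ℝ) / b ≤ ∑ b ∈ Icc 1 y, (1 : ℝ) / b := by
      unfold Od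
      exact Finset.sum_le_sum_of_subset_of_nonneg (Finset.filter_subset _ _)
        fun b _ _ => by positivity
    refine h2.trans ?_
    have h3 := harmonic_le_one_add_log y
    rw [harmonic_eq_sum_Icc] at h3
    push_cast at h3
    simpa [one_div] using h3
  rw [hsplit, hS1, hS2]
  have hfin : ∀ (s t u : ℝ), |s - u| ≤ A → |t| ≤ E * (y * (1 + Real.log y)) →
      |s + t - u| ≤ A + E * (y * (1 + Real.log y)) := by
    intro s t u h1 h2
    rw [abs_le] at h1 h2 ⊢
    constructor <;> linarith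
  exact hfin _ _ _ hA hB

end Pool.Agent.Work.MP_e0c7e8_nt.Sm
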