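import Mathlib

set_option autoImplicit false

namespace Pool.Agent.Work.MP_e0c7e8_nt.Sm

open Finset

/-- Shift of a sum over an interval of integers. -/
theorem sum_Ico_shift (g : ℤ → ℝ) (a b c : ℤ) :
    ∑ n ∈ Ico a b, g (n + c) = ∑ m ∈ Ico (a + c) (b + c), g m := by
  rw [← Finset.map_add_right_Ico, Finset.sum_map]
  rfl

theorem per_mul {u : ℤ → ℝ} {s : ℕ} (hper : ∀ n, u (n + s) = u n) (h : ℕ) (n : ℤ) :
    u (n + h * s) = u n := by
  induction h with
  | zero => simp
  | succ k ih =>
    have : n + ((k + 1 : ℕ) : ℤ) * s = (n + k * s) + s := by push_cast; ring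
    rw [this, hper, ih]

/-- One step of the `q`-van der Corput differencing. -/
theorem vdc (u v : ℤ → ℝ) (s H N : ℕ) (hH : 1 ≤ H) (hN : H * s ≤ N)
    (hu : ∀ n, |u n| ≤ 1) (hv : ∀ n, |v n| ≤ 1) (hper : ∀ n, u (n + s) = u n)
    (K : ℕ → ℝ) (hK : ∀ j : ℕ, 1 ≤ j → j < H → ∀ a b : ℤ, b - a ≤ N →
      |∑ m ∈ Ico a b, v m * v (m + j * s)| ≤ K j)
    (a b : ℤ) (hab : b - a ≤ N) :
    (∑ n ∈ Ico a b, u n * v n) ^ 2 ≤ (2 * N / H) * (N + 2 * ∑ j ∈ Ico 1 H, K j) := by
  classical
  set w : ℤ → ℝ := fun n => if n ∈ Ico a b then v n else 0 with hw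
  set J : Finset ℤ := Ico (a - H * s) b with hJ
  set S : ℝ := ∑ n ∈ Ico a b, u n * v n with hS
  have hKnn : ∀ j ∈ Ico 1 H, 0 ≤ K j := by
    intro j hj
    have hj' := Finset.mem_Ico.1 hj
    exact (abs_nonneg _).trans (hK j hj'.1 hj'.2 a b hab)
  -- every shift gives `S`
  have hshift : ∀ h ∈ range H, ∑ n ∈ J, u n * w (n + h * s) = S := by
    intro h hh
    have hh' : h < H := Finset.mem_range.1 hh
    have hhs : ((h : ℤ)) * s ≤ H * s := by
      have : h * s ≤ H * s := Nat.mul_le_mul_right _ hh'.le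
      exact_mod_cast this
    have h0 : (0 : ℤ) ≤ (h : ℤ) * s := by positivity
    have e1 : ∑ n ∈ J, u n * w (n + h * s) = ∑ n ∈ J, (fun m => u m * w m) (n + h * s) := by
      refine Finset.sum_congr rfl fun n _ => ?_
      simp only [per_mul hper]
    rw [e1, hJ, sum_Ico_shift (fun m => u m * w m)]
    rw [hS]
    symm
    have e2 : ∑ n ∈ Ico a b, u n * v n = ∑ n ∈ Ico a b, u n * w n := by
      refine Finset.sum_congr rfl fun n hn => ?_
      simp only [hw, if_pos hn]
    rw [e2]
    refine Finset.sum_subset ?_ ?_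
    · intro m hm
      rw [Finset.mem_Ico] at hm ⊢
      constructor <;> omega
    · intro m _ hm
      simp only [hw, if_neg hm, mul_zero]
  -- correlations
  have hcorr : ∀ h j : ℕ, h < H → h + j < H → ∑ n ∈ J, w (n + h * s) * w (n + (h + j : ℕ) * s)
      ≤ if j = 0 then (N : ℝ) else K j := by
    intro h j hh hhj
    have hhs : ((h : ℤ)) * s ≤ H * s := by
      have : h * s ≤ H * s := Nat.mul_le_mul_right _ hh.le
      exact_mod_cast this
    have h0 : (0 : ℤ) ≤ (h : ℤ) * s := by positivity
    have h1 : (0 : ℤ) ≤ (j : ℤ) * s := by positivity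
    have e1 : ∑ n ∈ J, w (n + h * s) * w (n + (h + j : ℕ) * s)
        = ∑ n ∈ J, (fun m => w m * w (m + j * s)) (n + h * s) := by
      refine Finset.sum_congr rfl fun n _ => ?_
      simp only
      congr 2
      push_cast; ring
    have e2 : ∑ m ∈ Ico (a - H * s + h * s) (b + h * s), w m * w (m + j * s)
        = ∑ m ∈ Ico a (b - j * s), v m * v (m + j * s) := by
      symm
      have e3 : ∑ m ∈ Ico a (b - j * s), v m * v (m + j * s)
          = ∑ m ∈ Ico a (b - j * s), w m * w (m + j * s) := by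
        refine Finset.sum_congr rfl fun m hm => ?_
        rw [Finset.mem_Ico] at hm
        have h2 : m ∈ Ico a b := Finset.mem_Ico.2 ⟨hm.1, by omega⟩
        have h3 : m + j * s ∈ Ico a b := Finset.mem_Ico.2 ⟨by omega, by omega⟩
        simp only [hw, if_pos h2, if_pos h3]
      rw [e3]
      refine Finset.sum_subset ?_ ?_
      · intro m hm
        rw [Finset.mem_Ico] at hm ⊢
        constructor <;> omega
      · intro m _ hm
        by_cases h2 : m ∈ Ico a b
        · have h3 : m + j * s ∉ Ico a b := by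
            intro h3
            apply hm
            rw [Finset.mem_Ico] at h2 h3 ⊢
            constructor <;> omega
          simp only [hw, if_neg h3, mul_zero]
        · simp only [hw, if_neg h2, zero_mul]
    rw [e1, hJ, sum_Ico_shift (fun m => w m * w (m + j * s)), e2]
    split_ifs with hj
    · subst hj
      calc ∑ m ∈ Ico a (b - ((0 : ℕ) : ℤ) * s), v m * v (m + ((0 : ℕ) : ℤ) * s)
          ≤ ∑ m ∈ Ico a (b - ((0 : ℕ) : ℤ) * s), (1 : ℝ) := by
            refine Finset.sum_le_sum fun m _ => ?_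
            have := hv m
            simp only [Nat.cast_zero, zero_mul, add_zero]
            nlinarith [abs_le.1 this]
        _ ≤ N := by
            simp only [Finset.sum_const, Int.card_Ico, nsmul_eq_mul, mul_one]
            have : (b - ((0 : ℕ) : ℤ) * s - a).toNat ≤ N := by
              simp only [Nat.cast_zero, zero_mul, sub_zero]
              omega
            exact_mod_cast this
    · exact (le_abs_self _).trans (hK j (by omega) (by omega) a _ (by omega))
  -- for fixed `h`
  have hrow : ∀ h ∈ range H, ∑ h' ∈ range H, ∑ n ∈ J, w (n + h * s) * w (n + h' * s)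
      ≤ N + 2 * ∑ j ∈ Ico 1 H, K j := by
    intro h hh
    have hh' : h < H := Finset.mem_range.1 hh
    have hle : ∀ h' ∈ range H, ∑ n ∈ J, w (n + h * s) * w (n + h' * s)
        ≤ (if h' = h then (N : ℝ) else 0) + (if h < h' then K (h' - h) else 0)
          + (if h' < h then K (h - h') else 0) := by
      intro h' hh2
      have hh2' : h' < H := Finset.mem_range.1 hh2
      rcases lt_trichotomy h h' with hlt | heq | hgt
      · have := hcorr h (h' - h) hh' (by omega)
        rw [if_neg (by omega : ¬ (h' - h = 0))] at this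
        rw [if_neg (by omega : ¬ (h' = h)), if_pos hlt, if_neg (by omega : ¬ (h' < h))]
        have e : h + (h' - h) = h' := by omega
        rw [e] at this
        linarith
      · subst heq
        have := hcorr h 0 hh' (by omega)
        simp only [add_zero, if_true] at this
        simp only [if_true, lt_irrefl, if_false, add_zero]
        exact this
      · have := hcorr h' (h - h') hh2' (by omega)
        rw [if_neg (by omega : ¬ (h - h' = 0))] at this
        rw [if_neg (by omega : ¬ (h' = h)), if_neg (by omega : ¬ (h < h')), if_pos hgt]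
        have e : h' + (h - h') = h := by omega
        rw [e] at this
        have e2 : ∑ n ∈ J, w (n + h * s) * w (n + h' * s)
            = ∑ n ∈ J, w (n + h' * s) * w (n + h * s) :=
          Finset.sum_congr rfl fun n _ => mul_comm _ _
        rw [e2]
        linarith
    refine (Finset.sum_le_sum hle).trans ?_
    rw [Finset.sum_add_distrib, Finset.sum_add_distrib]
    have s1 : ∑ h' ∈ range H, (if h' = h then (N : ℝ) else 0) = N := by
      rw [Finset.sum_ite_eq' (range H) h, if_pos hh]
    have s2 : ∑ h' ∈ range H, (if h < h' then K (h' - h) else 0) ≤ ∑ j ∈ Ico 1 H, K j := by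
      rw [← Finset.sum_filter]
      have : ∑ h' ∈ (range H).filter (fun h' => h < h'), K (h' - h)
          = ∑ j ∈ ((range H).filter (fun h' => h < h')).image (fun h' => h' - h), K j := by
        rw [Finset.sum_image]
        intro x hx y hy hxy
        rw [Finset.mem_coe, Finset.mem_filter] at hx hy
        simp only at hxy
        omega
      rw [this]
      refine Finset.sum_le_sum_of_subset_of_nonneg ?_ (fun j hj _ => hKnn j hj)
      intro j hj
      rw [Finset.mem_image] at hj
      obtain ⟨h', hh3, rfl⟩ := hj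
      rw [Finset.mem_filter, Finset.mem_range] at hh3
      rw [Finset.mem_Ico]
      omega
    have s3 : ∑ h' ∈ range H, (if h' < h then K (h - h') else 0) ≤ ∑ j ∈ Ico 1 H, K j := by
      rw [← Finset.sum_filter]
      have : ∑ h' ∈ (range H).filter (fun h' => h' < h), K (h - h')
          = ∑ j ∈ ((range H).filter (fun h' => h' < h)).image (fun h' => h - h'), K j := by
        rw [Finset.sum_image]
        intro x hx y hy hxy
        rw [Finset.mem_coe, Finset.mem_filter] at hx hy
        simp only at hxy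
        omega
      rw [this]
      refine Finset.sum_le_sum_of_subset_of_nonneg ?_ (fun j hj _ => hKnn j hj)
      intro j hj
      rw [Finset.mem_image] at hj
      obtain ⟨h', hh3, rfl⟩ := hj
      rw [Finset.mem_filter, Finset.mem_range] at hh3
      rw [Finset.mem_Ico]
      omega
    linarith
  -- assembly
  have hHS : (H : ℝ) * S = ∑ n ∈ J, u n * ∑ h ∈ range H, w (n + h * s) := by
    calc (H : ℝ) * S = ∑ h ∈ range H, S := by simp
      _ = ∑ h ∈ range H, ∑ n ∈ J, u n * w (n + h * s) :=
          Finset.sum_congr rfl fun h hh => (hshift h hh).symm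
      _ = ∑ n ∈ J, ∑ h ∈ range H, u n * w (n + h * s) := Finset.sum_comm
      _ = _ := by simp only [Finset.mul_sum]
  have hcs : ((H : ℝ) * S) ^ 2 ≤ (∑ n ∈ J, (u n) ^ 2) *
      ∑ n ∈ J, (∑ h ∈ range H, w (n + h * s)) ^ 2 := by
    rw [hHS]
    exact Finset.sum_mul_sq_le_sq_mul_sq _ _ _
  have hJcard : (∑ n ∈ J, (u n) ^ 2) ≤ 2 * N := by
    calc ∑ n ∈ J, (u n) ^ 2 ≤ ∑ n ∈ J, (1 : ℝ) := by
          refine Finset.sum_le_sum fun n _ => ?_
          have := hu n
          rw [← sq_abs]
          nlinarith [abs_nonneg (u n)]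
      _ ≤ 2 * N := by
          simp only [Finset.sum_const, hJ, Int.card_Ico, nsmul_eq_mul, mul_one]
          have h3 : (b - (a - H * s)).toNat ≤ 2 * N := by
            have : ((H * s : ℕ) : ℤ) ≤ N := by exact_mod_cast hN
            push_cast at this
            omega
          exact_mod_cast h3
  have hsq : ∑ n ∈ J, (∑ h ∈ range H, w (n + h * s)) ^ 2
      = ∑ h ∈ range H, ∑ h' ∈ range H, ∑ n ∈ J, w (n + h * s) * w (n + h' * s) := by
    calc ∑ n ∈ J, (∑ h ∈ range H, w (n + h * s)) ^ 2
        = ∑ n ∈ J, ∑ h ∈ range H, ∑ h' ∈ range H, w (n + h * s) * w (n + h' * s) := by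
          refine Finset.sum_congr rfl fun n _ => ?_
          rw [sq, Finset.sum_mul_sum]
      _ = ∑ h ∈ range H, ∑ n ∈ J, ∑ h' ∈ range H, w (n + h * s) * w (n + h' * s) :=
          Finset.sum_comm
      _ = _ := Finset.sum_congr rfl fun h _ => Finset.sum_comm
  have hsq2 : ∑ n ∈ J, (∑ h ∈ range H, w (n + h * s)) ^ 2
      ≤ H * (N + 2 * ∑ j ∈ Ico 1 H, K j) := by
    rw [hsq]
    calc _ ≤ ∑ h ∈ range H, ((N : ℝ) + 2 * ∑ j ∈ Ico 1 H, K j) := Finset.sum_le_sum hrow
      _ = _ := by rw [Finset.sum_const, Finset.card_range, nsmul_eq_mul]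
  have hnn : 0 ≤ ∑ n ∈ J, (∑ h ∈ range H, w (n + h * s)) ^ 2 :=
    Finset.sum_nonneg fun n _ => sq_nonneg _
  have hfin : ((H : ℝ) * S) ^ 2 ≤ 2 * N * (H * (N + 2 * ∑ j ∈ Ico 1 H, K j)) :=
    hcs.trans (mul_le_mul hJcard hsq2 hnn (by positivity))
  have hHpos : (0 : ℝ) < H := by exact_mod_cast hH
  have : S ^ 2 * (H : ℝ) ^ 2 ≤ ((2 * N / H) * (N + 2 * ∑ j ∈ Ico 1 H, K j)) * (H : ℝ) ^ 2 := by
    have e : ((2 * N / H) * (N + 2 * ∑ j ∈ Ico 1 H, K j)) * (H : ℝ) ^ 2
        = 2 * N * (H * (N + 2 * ∑ j ∈ Ico 1 H, K j)) := by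
      field_simp
    rw [e]
    calc S ^ 2 * (H : ℝ) ^ 2 = ((H : ℝ) * S) ^ 2 := by ring
      _ ≤ _ := hfin
  exact le_of_mul_le_mul_right this (by positivity)

end Pool.Agent.Work.MP_e0c7e8_nt.Sm
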