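import Pool.Agent.Work.MP_e0c7e8_nt.Sm.Comp
import Pool.Agent.Work.MP_e0c7e8_nt.Sm.Vdc

set_option autoImplicit false

namespace Pool.Agent.Work.MP_e0c7e8_nt.Sm

open Finset

/-- the quantity bounding the iterated sums -/
noncomputable def XX (H Q N r : ℕ) (Λ : ℝ) (L : List ℤ) : ℝ :=
  1 / H + Q / N + Λ ^ Q.primeFactors.card * (Q.divisors.card : ℝ) ^ r * Real.sqrt (Dg Q L / Q)

theorem XX_nonneg (H Q N r : ℕ) (Λ : ℝ) (hΛ : 0 ≤ Λ) (L : List ℤ) : 0 ≤ XX H Q N r Λ L := by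
  unfold XX
  positivity

theorem sum_XX (H Q N r : ℕ) (hH : 1 ≤ H) (Λ : ℝ) (hΛ : 0 ≤ Λ) (L : List ℤ) (s : ℕ)
    (hsq : Squarefree Q) (ho : Odd Q) (hs : Q.Coprime s) :
    (1 / (H : ℝ)) * ∑ j ∈ Ico 1 H, XX H Q N r Λ (L ++ L.map (· + (j * s : ℤ))) ≤
      XX H Q N (r + 1) Λ L := by
  have hH0 : (0 : ℝ) < H := by exact_mod_cast hH
  have hQ0 : (0 : ℝ) < Q := by exact_mod_cast Nat.pos_of_ne_zero hsq.ne_zero
  set τ : ℝ := (Q.divisors.card : ℝ) with hτ
  set W : ℝ := Λ ^ Q.primeFactors.card with hW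
  have hW0 : 0 ≤ W := by positivity
  have hτ0 : 0 ≤ τ := by positivity
  have h1 : ∀ j ∈ Ico 1 H, XX H Q N r Λ (L ++ L.map (· + (j * s : ℤ))) ≤
      (1 / H + Q / N) + W * τ ^ r * Real.sqrt (Dg Q L / Q) * ((Nat.gcd Q j : ℕ) : ℝ) := by
    intro j hj
    have hj1 := (Finset.mem_Ico.1 hj).1
    have h2 := Dg_shift Q hsq ho L s j hj1 hs
    have hg : (1 : ℝ) ≤ ((Nat.gcd Q j : ℕ) : ℝ) := by
      exact_mod_cast Nat.gcd_pos_of_pos_right Q (by omega)
    have h3 : Real.sqrt (Dg Q (L ++ L.map (· + (j * s : ℤ))) / Q) ≤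
        Real.sqrt (Dg Q L / Q) * ((Nat.gcd Q j : ℕ) : ℝ) := by
      calc Real.sqrt (Dg Q (L ++ L.map (· + (j * s : ℤ))) / Q)
          ≤ Real.sqrt ((Dg Q L / Q) * ((Nat.gcd Q j : ℕ) : ℝ)) := by
            apply Real.sqrt_le_sqrt
            rw [div_mul_eq_mul_div]
            exact div_le_div_of_nonneg_right h2 hQ0.le
        _ = Real.sqrt (Dg Q L / Q) * Real.sqrt ((Nat.gcd Q j : ℕ) : ℝ) :=
            Real.sqrt_mul (div_nonneg (Dg_nonneg Q L) hQ0.le) _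
        _ ≤ _ := by
            refine mul_le_mul_of_nonneg_left ?_ (Real.sqrt_nonneg _)
            rw [Real.sqrt_le_left (by linarith)]
            nlinarith
    unfold XX
    rw [mul_assoc (W * τ ^ r)]
    gcongr
  have h4 := sum_gcd Q H hsq.ne_zero
  calc (1 / (H : ℝ)) * ∑ j ∈ Ico 1 H, XX H Q N r Λ (L ++ L.map (· + (j * s : ℤ)))
      ≤ (1 / (H : ℝ)) * ∑ j ∈ Ico 1 H, ((1 / H + Q / N) +
          W * τ ^ r * Real.sqrt (Dg Q L / Q) * ((Nat.gcd Q j : ℕ) : ℝ)) := by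
        gcongr with j hj
        exact h1 j hj
    _ = (1 / (H : ℝ)) * (((H - 1 : ℕ) : ℝ) * (1 / H + Q / N) +
          W * τ ^ r * Real.sqrt (Dg Q L / Q) * ∑ j ∈ Ico 1 H, ((Nat.gcd Q j : ℕ) : ℝ)) := by
        rw [Finset.sum_add_distrib, Finset.sum_const, Nat.card_Ico, nsmul_eq_mul,
          ← Finset.mul_sum]
    _ ≤ (1 / (H : ℝ)) * ((H : ℝ) * (1 / H + Q / N) +
          W * τ ^ r * Real.sqrt (Dg Q L / Q) * (H * τ)) := by
        have h5 : ((H - 1 : ℕ) : ℝ) ≤ H := by exact_mod_cast Nat.sub_le H 1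
        gcongr
    _ = (1 / H + Q / N) + W * τ ^ (r + 1) * Real.sqrt (Dg Q L / Q) := by
        field_simp
        ring
    _ = XX H Q N (r + 1) Λ L := by unfold XX; rfl

theorem sum_range_split (f : ℕ → ℝ) (H : ℕ) (hH : 1 ≤ H) :
    ∑ j ∈ range H, f j = f 0 + ∑ j ∈ Ico 1 H, f j := by
  rw [Finset.range_eq_Ico, Finset.sum_eq_sum_Ico_succ_bot (by omega)]

theorem iter (r : ℕ) : ∃ A : ℝ, 1 ≤ A ∧ ∀ (Λ : ℝ) (L : List ℤ) (l : List ℕ) (Q H N : ℕ),
    l.length = r → 1 ≤ L.length → (L.length : ℝ) * 2 ^ r ≤ Λ → 1 ≤ H → 1 ≤ N →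
    (∀ s ∈ l, H * s ≤ N) → Squarefree (Q * l.prod) → Odd Q → ∀ a b : ℤ, b - a ≤ N →
    (|∑ n ∈ Ico a b, G (Q * l.prod) L n| / N) ^ (2 ^ r) ≤ A * XX H Q N r Λ L := by
  induction r with
  | zero =>
    refine ⟨1, le_rfl, ?_⟩
    intro Λ L l Q H N hl hL hΛ hH hN hs hsq ho a b hab
    rw [List.length_eq_zero_iff] at hl
    subst hl
    rw [List.prod_nil, mul_one] at hsq ⊢
    have h1 := base Q hsq ho L hL N a b hab
    have hN0 : (0 : ℝ) < N := by exact_mod_cast hN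
    have hH0 : (0 : ℝ) < H := by exact_mod_cast hH
    rw [pow_zero, pow_one, one_mul, div_le_iff₀ hN0]
    refine h1.trans ?_
    unfold XX
    rw [pow_zero, mul_one] at hΛ
    have h2 : (L.length : ℝ) ^ Q.primeFactors.card ≤ Λ ^ Q.primeFactors.card := by gcongr
    have h3 : (Q : ℝ) / N * N = Q := by field_simp
    have h4 : (0 : ℝ) ≤ 1 / H * N := by positivity
    rw [pow_zero, mul_one, add_mul, add_mul, h3]
    have h5 : N * ((L.length : ℝ) ^ Q.primeFactors.card * Real.sqrt (Dg Q L / Q)) ≤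
        N * (Λ ^ Q.primeFactors.card * Real.sqrt (Dg Q L / Q)) := by gcongr
    linarith
  | succ r ih =>
    obtain ⟨A, hA, ih⟩ := ih
    refine ⟨4 ^ (2 ^ r) * (1 + A), ?_, ?_⟩
    · have : (1 : ℝ) ≤ 4 ^ (2 ^ r) := one_le_pow₀ (by norm_num)
      nlinarith
    intro Λ L l Q H N hl hL hΛ hH hN hs hsq ho a b hab
    obtain ⟨s, l', rfl⟩ : ∃ s l', l = s :: l' := by
      cases l with
      | nil => simp at hl
      | cons s l' => exact ⟨s, l', rfl⟩
    have hN0 : (0 : ℝ) < N := by exact_mod_cast hN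
    have hH0 : (0 : ℝ) < H := by exact_mod_cast hH
    have hΛ0 : 0 ≤ Λ := le_trans (by positivity) hΛ
    rw [List.prod_cons, mul_left_comm] at hsq ⊢
    obtain ⟨hcop, hsqs, hsq'⟩ := Nat.squarefree_mul_iff.1 hsq
    have hlen : l'.length = r := by simpa using hl
    have hQ : Squarefree Q := hsq'.of_mul_left
    have hQs : Q.Coprime s := (hcop.coprime_dvd_right (Dvd.intro _ rfl)).symm
    set n : ℕ := 2 ^ r with hn
    have hn0 : n ≠ 0 := by positivity
    set X : ℕ → ℝ := fun j => XX H Q N r Λ (L ++ L.map (· + (j * s : ℤ))) with hX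
    have hX0 : ∀ j, 0 ≤ X j := fun j => XX_nonneg _ _ _ _ _ hΛ0 _
    set t : ℕ → ℝ := fun j => (A * X j) ^ ((n : ℝ)⁻¹) with ht
    have ht0 : ∀ j, 0 ≤ t j := fun j => Real.rpow_nonneg (mul_nonneg (by linarith) (hX0 j)) _
    have htn : ∀ j, t j ^ n = A * X j := fun j =>
      Real.rpow_inv_natCast_pow (mul_nonneg (by linarith) (hX0 j)) hn0
    have hK : ∀ j : ℕ, 1 ≤ j → j < H → ∀ a b : ℤ, b - a ≤ N →
        |∑ m ∈ Ico a b, G (Q * l'.prod) L m * G (Q * l'.prod) L (m + j * s)| ≤ N * t j := by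
      intro j _ _ a b hab
      have h1 := ih Λ (L ++ L.map (· + (j * s : ℤ))) l' Q H N hlen (by simp; omega)
        (by
          rw [List.length_append, List.length_map]
          push_cast
          rw [pow_succ] at hΛ
          linarith) hH hN (fun s' hs' => hs s' (List.mem_cons_of_mem s hs')) hsq' ho a b hab
      have h2 : ∀ m, G (Q * l'.prod) (L ++ L.map (· + (j * s : ℤ))) m =
          G (Q * l'.prod) L m * G (Q * l'.prod) L (m + j * s) := by
        intro m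
        rw [G_append, G_shift]
      simp only [h2] at h1
      have h3 : |∑ m ∈ Ico a b, G (Q * l'.prod) L m * G (Q * l'.prod) L (m + j * s)| / N ≤ t j := by
        refine le_of_pow_le_pow_left₀ hn0 (ht0 j) ?_
        rw [htn]
        exact h1
      rw [div_le_iff₀ hN0] at h3
      linarith
    have h4 := vdc (G s L) (G (Q * l'.prod) L) s H N hH (hs s (by simp)) (G_abs s L)
      (G_abs _ L) (G_per s L) (fun j => N * t j) hK a b hab
    have hne1 : s ≠ 0 := hsqs.ne_zero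
    have hne2 : Q * l'.prod ≠ 0 := hsq'.ne_zero
    simp only [← G_mul s (Q * l'.prod) hne1 hne2] at h4
    set S : ℝ := ∑ n ∈ Ico a b, G (s * (Q * l'.prod)) L n with hS
    have h5 : (|S| / N) ^ 2 ≤ (2 / H) * (1 + 2 * ∑ j ∈ Ico 1 H, t j) := by
      rw [div_pow, sq_abs, div_le_iff₀ (by positivity)]
      refine h4.trans (le_of_eq ?_)
      rw [← Finset.mul_sum]
      field_simp
    have h6 : (2 / H) * (1 + 2 * ∑ j ∈ Ico 1 H, t j) =
        ∑ j ∈ range H, (1 / (H : ℝ)) * (if j = 0 then 2 else 4 * t j) := by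
      rw [← Finset.mul_sum, sum_range_split _ H hH, if_pos rfl]
      have h7 : ∑ j ∈ Ico 1 H, (if j = 0 then 2 else 4 * t j) = ∑ j ∈ Ico 1 H, 4 * t j := by
        refine Finset.sum_congr rfl fun j hj => ?_
        rw [if_neg]
        have := (Finset.mem_Ico.1 hj).1
        omega
      rw [h7, ← Finset.mul_sum]
      ring
    have h8 : (∑ j ∈ range H, (1 / (H : ℝ)) * (if j = 0 then 2 else 4 * t j)) ^ n ≤
        ∑ j ∈ range H, (1 / (H : ℝ)) * (if j = 0 then 2 else 4 * t j) ^ n := by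
      apply Real.pow_arith_mean_le_arith_mean_pow
      · intro _ _; positivity
      · rw [Finset.sum_const, Finset.card_range, nsmul_eq_mul]
        field_simp
      · intro j _
        split_ifs
        · norm_num
        · have := ht0 j
          positivity
    have h9 : ∑ j ∈ range H, (1 / (H : ℝ)) * (if j = 0 then 2 else 4 * t j) ^ n =
        (1 / (H : ℝ)) * (2 ^ n + 4 ^ n * (A * ∑ j ∈ Ico 1 H, X j)) := by
      rw [← Finset.mul_sum, sum_range_split _ H hH, if_pos rfl]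
      have h7 : ∑ j ∈ Ico 1 H, (if j = 0 then 2 else 4 * t j) ^ n =
          ∑ j ∈ Ico 1 H, 4 ^ n * (A * X j) := by
        refine Finset.sum_congr rfl fun j hj => ?_
        rw [if_neg, mul_pow, htn]
        have := (Finset.mem_Ico.1 hj).1
        omega
      rw [h7, ← Finset.mul_sum, ← Finset.mul_sum]
    have h10 := sum_XX H Q N r hH Λ hΛ0 L s hQ ho hQs
    have h11 : 1 / (H : ℝ) ≤ XX H Q N (r + 1) Λ L := by
      unfold XX
      have : 0 ≤ (Q : ℝ) / N := by positivity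
      have : 0 ≤ Λ ^ Q.primeFactors.card * (Q.divisors.card : ℝ) ^ (r + 1) *
        Real.sqrt (Dg Q L / Q) := by positivity
      linarith
    have h12 : (|S| / N) ^ 2 ^ (r + 1) = ((|S| / N) ^ 2) ^ n := by
      rw [← pow_mul, hn, pow_succ, mul_comm]
    rw [h12]
    have h13 : (2 : ℝ) ^ n ≤ 4 ^ n := by gcongr; norm_num
    have h14 : 0 ≤ XX H Q N (r + 1) Λ L := XX_nonneg _ _ _ _ _ hΛ0 _
    calc ((|S| / N) ^ 2) ^ n ≤ ((2 / H) * (1 + 2 * ∑ j ∈ Ico 1 H, t j)) ^ n := by gcongr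
      _ ≤ (1 / (H : ℝ)) * (2 ^ n + 4 ^ n * (A * ∑ j ∈ Ico 1 H, X j)) := by
          rw [h6, ← h9]; exact h8
      _ ≤ (1 / (H : ℝ)) * (4 ^ n + 4 ^ n * (A * ∑ j ∈ Ico 1 H, X j)) := by gcongr
      _ = 4 ^ n * (1 / (H : ℝ) + A * ((1 / (H : ℝ)) * ∑ j ∈ Ico 1 H, X j)) := by ring
      _ ≤ 4 ^ n * (XX H Q N (r + 1) Λ L + A * XX H Q N (r + 1) Λ L) := by gcongr
      _ = _ := by ring

end Pool.Agent.Work.MP_e0c7e8_nt.Sm
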