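import Pool.Agent.Work.MP_e0c7e8_nt.Sm.Weil

set_option autoImplicit false

namespace Pool.Agent.Work.MP_e0c7e8_nt.Sm

open Finset

/-- real valued quadratic character -/
noncomputable def ch (p : ℕ) [Fact p.Prime] (z : ZMod p) : ℝ :=
  ((quadraticChar (ZMod p) z : ℤ) : ℝ)

theorem ch_zero_iff (p : ℕ) [Fact p.Prime] (z : ZMod p) : ch p z = 0 ↔ z = 0 := by
  unfold ch
  rw [Int.cast_eq_zero, quadraticChar_eq_zero_iff]

theorem ch_sq (p : ℕ) [Fact p.Prime] (z : ZMod p) (hz : z ≠ 0) : ch p z ^ 2 = 1 := by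
  unfold ch
  rcases quadraticChar_dichotomy hz with h | h <;> rw [h] <;> norm_num

theorem ch_abs (p : ℕ) [Fact p.Prime] (z : ZMod p) : |ch p z| ≤ 1 := by
  by_cases hz : z = 0
  · rw [(ch_zero_iff p z).2 hz]; simp
  · have := ch_sq p z hz
    rw [← sq_abs] at this
    nlinarith [abs_nonneg (ch p z)]

theorem ch_odd (p : ℕ) [Fact p.Prime] (z : ZMod p) (n : ℕ) (hn : Odd n) : ch p z ^ n = ch p z := by
  obtain ⟨m, rfl⟩ := hn
  by_cases hz : z = 0
  · rw [(ch_zero_iff p z).2 hz]; simp
  · rw [pow_succ, pow_mul, ch_sq p z hz, one_pow, one_mul]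

theorem ch_even (p : ℕ) [Fact p.Prime] (z : ZMod p) (n : ℕ) (hn : Even n) (hz : z ≠ 0) :
    ch p z ^ n = 1 := by
  obtain ⟨m, rfl⟩ := hn
  rw [← two_mul, pow_mul, ch_sq p z hz, one_pow]

/-- product of quadratic characters along the shifts -/
noncomputable def gp (p : ℕ) [Fact p.Prime] (L : List ℤ) (z : ZMod p) : ℝ :=
  (L.map fun a : ℤ => ch p (z + a)).prod

theorem cc_count (p : ℕ) (L : List ℤ) (x : ZMod p) :
    cc p L x = ((L.map (Int.cast : ℤ → ZMod p)).count x : ZMod 2) := by
  induction L with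
  | nil => simp [cc]
  | cons a L ih =>
    have : cc p (a :: L) x = (if (a : ZMod p) = x then (1 : ZMod 2) else 0) + cc p L x := by
      simp [cc]
    rw [this, ih, List.map_cons, List.count_cons]
    split_ifs with h1 h2 h2
    · push_cast; ring
    · exact absurd (by simpa using h1) h2
    · exact absurd (by simpa using h2) h1
    · push_cast; ring

/-- Weil's bound for a set of distinct shifts -/
theorem weil_set (p : ℕ) [Fact p.Prime] (hp2 : p ≠ 2) (O : Finset (ZMod p)) (hO : O.Nonempty) :
    |∑ z : ZMod p, ∏ r ∈ O, ch p (z + r)| ≤ O.card * Real.sqrt p := by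
  classical
  have hne : (quadraticChar (ZMod p)).ringHomComp (Int.castRingHom ℂ) ≠ 1 := by
    intro h
    have h1 : quadraticChar (ZMod p) = 1 := by
      ext x
      have h2 := congrArg (fun f : MulChar (ZMod p) ℂ => f x) h
      simp only [MulChar.ringHomComp_apply, MulChar.one_apply_coe] at h2
      rw [MulChar.one_apply_coe]
      have h3 : ((quadraticChar (ZMod p) x : ℤ) : ℂ) = ((1 : ℤ) : ℂ) := by
        simpa using h2
      exact_mod_cast h3
    exact quadraticChar_ne_one (by rwa [ZMod.ringChar_zmod_n]) h1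
  have h := weilBound p O.card (fun j => -((O.equivFin.symm j : O) : ZMod p))
    (fun _ => (quadraticChar (ZMod p)).ringHomComp (Int.castRingHom ℂ))
    (Finset.card_pos.2 hO) (by
      intro i j hij
      have h1 := neg_injective hij
      exact O.equivFin.symm.injective (Subtype.ext h1)) (fun _ => hne)
  refine le_trans (le_of_eq ?_) h
  rw [← Real.norm_eq_abs, ← Complex.norm_real, Complex.ofReal_sum]
  congr 1
  refine Finset.sum_congr rfl fun z _ => ?_
  rw [Complex.ofReal_prod]
  rw [← Finset.prod_coe_sort O, ← O.equivFin.symm.prod_comp]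
  refine Finset.prod_congr rfl fun j _ => ?_
  rw [sub_neg_eq_add, MulChar.ringHomComp_apply]
  unfold ch
  simp

/-- complete sums modulo a prime -/
theorem prime_bound (p : ℕ) [Fact p.Prime] (hp2 : p ≠ 2) (L : List ℤ) (hL : ¬ dg p L) :
    |∑ z : ZMod p, gp p L z| ≤ L.length * Real.sqrt p := by
  classical
  set M : List (ZMod p) := L.map (Int.cast : ℤ → ZMod p) with hM
  set O : Finset (ZMod p) := M.toFinset.filter (fun r => Odd (M.count r)) with hO
  set E : Finset (ZMod p) := M.toFinset.filter (fun r => ¬ Odd (M.count r)) with hE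
  have hgp : ∀ z, gp p L z = (∏ r ∈ O, ch p (z + r)) * ∏ r ∈ E, ch p (z + r) ^ (M.count r) := by
    intro z
    have h1 : gp p L z = (M.map fun r => ch p (z + r)).prod := by
      unfold gp
      rw [hM, List.map_map]
      rfl
    rw [h1, Finset.prod_list_map_count, ← Finset.prod_filter_mul_prod_filter_not M.toFinset
      (fun r => Odd (M.count r))]
    congr 1
    refine Finset.prod_congr rfl fun r hr => ?_
    exact ch_odd p _ _ (Finset.mem_filter.1 hr).2
  have hOne : O.Nonempty := by
    unfold dg at hL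
    push Not at hL
    obtain ⟨x, y, hxy⟩ := hL
    have key : ∀ w : ZMod p, cc p L w ≠ 0 → w ∈ O := by
      intro w hw
      rw [cc_count, ← hM, Ne, ZMod.natCast_eq_zero_iff_even, Nat.not_even_iff_odd] at hw
      rw [hO, Finset.mem_filter, List.mem_toFinset]
      exact ⟨List.count_pos_iff.1 hw.pos, hw⟩
    by_cases h0 : cc p L x = 0
    · exact ⟨y, key y fun h => hxy (by rw [h0, h])⟩
    · exact ⟨x, key x h0⟩
  have hdiff : ∀ z, |gp p L z - ∏ r ∈ O, ch p (z + r)| ≤ ∑ r ∈ E, if z + r = 0 then (1 : ℝ) else 0 := by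
    intro z
    have hOabs : |∏ r ∈ O, ch p (z + r)| ≤ 1 := by
      rw [Finset.abs_prod]
      exact Finset.prod_le_one (fun _ _ => abs_nonneg _) fun _ _ => ch_abs p _
    rw [hgp]
    by_cases hz : ∃ r ∈ E, z + r = 0
    · obtain ⟨r, hr, hzr⟩ := hz
      have h1 : ∏ r ∈ E, ch p (z + r) ^ (M.count r) = 0 := by
        refine Finset.prod_eq_zero hr ?_
        rw [(ch_zero_iff p _).2 hzr, zero_pow]
        have : r ∈ M := List.mem_toFinset.1 (Finset.mem_filter.1 hr).1
        exact (List.count_pos_iff.2 this).ne'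
      rw [h1, mul_zero, zero_sub, abs_neg]
      refine hOabs.trans ?_
      have h2 : (if z + r = 0 then (1 : ℝ) else 0) ≤ ∑ r ∈ E, if z + r = 0 then (1 : ℝ) else 0 :=
        Finset.single_le_sum (f := fun r => if z + r = 0 then (1 : ℝ) else 0)
          (fun i _ => by split_ifs <;> norm_num) hr
      rwa [if_pos hzr] at h2
    · push Not at hz
      have h1 : ∏ r ∈ E, ch p (z + r) ^ (M.count r) = 1 := by
        refine Finset.prod_eq_one fun r hr => ?_
        exact ch_even p _ _ (Nat.not_odd_iff_even.1 (Finset.mem_filter.1 hr).2) (hz r hr)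
      rw [h1, mul_one, sub_self, abs_zero]
      exact Finset.sum_nonneg fun i _ => by split_ifs <;> norm_num
  have hsum : |∑ z : ZMod p, gp p L z - ∑ z : ZMod p, ∏ r ∈ O, ch p (z + r)| ≤ E.card := by
    rw [← Finset.sum_sub_distrib]
    refine (Finset.abs_sum_le_sum_abs _ _).trans ?_
    refine (Finset.sum_le_sum fun z _ => hdiff z).trans ?_
    rw [Finset.sum_comm]
    have : ∀ r ∈ E, ∑ z : ZMod p, (if z + r = 0 then (1 : ℝ) else 0) = 1 := by
      intro r _
      have : ∀ z : ZMod p, (if z + r = 0 then (1 : ℝ) else 0) = if z = -r then (1 : ℝ) else 0 := by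
        intro z
        simp only [eq_neg_iff_add_eq_zero]
      simp only [this]
      simp
    rw [Finset.sum_congr rfl this]
    simp
  have hW := weil_set p hp2 O hOne
  have hcard : (O.card : ℝ) + E.card ≤ L.length := by
    have h1 : O.card + E.card = M.toFinset.card := by
      rw [hO, hE]
      exact Finset.card_filter_add_card_filter_not _
    have h2 : M.toFinset.card ≤ L.length := by
      refine (List.toFinset_card_le M).trans ?_
      rw [hM, List.length_map]
    exact_mod_cast (h1.trans_le h2)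
  have hs1 : (1 : ℝ) ≤ Real.sqrt p := by
    rw [Real.one_le_sqrt]
    exact_mod_cast (Fact.out : p.Prime).one_lt.le
  have h3 : |∑ z : ZMod p, gp p L z| ≤ |∑ z : ZMod p, ∏ r ∈ O, ch p (z + r)| +
      |∑ z : ZMod p, gp p L z - ∑ z : ZMod p, ∏ r ∈ O, ch p (z + r)| := by
    have := abs_add_le (∑ z : ZMod p, ∏ r ∈ O, ch p (z + r))
      (∑ z : ZMod p, gp p L z - ∑ z : ZMod p, ∏ r ∈ O, ch p (z + r))
    rwa [add_sub_cancel] at this
  calc |∑ z : ZMod p, gp p L z| ≤ O.card * Real.sqrt p + E.card := by linarith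
    _ ≤ O.card * Real.sqrt p + E.card * Real.sqrt p := by
        have : (0 : ℝ) ≤ E.card := Nat.cast_nonneg _
        nlinarith
    _ = (O.card + E.card) * Real.sqrt p := by ring
    _ ≤ L.length * Real.sqrt p := by gcongr

end Pool.Agent.Work.MP_e0c7e8_nt.Sm
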