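import Mathlib
import Pool.Agent.Work.MP_e0aece_nt.Bd.B04
import Pool.Agent.Work.MP_e0aece_nt.Bd.B05

set_option autoImplicit false

namespace Pool.Agent.Work.MP_e0c7e8_nt.Sm

open Finset

theorem weilBound : Pool.Agent.Work.MP_e0aece_nt.Sq.ClaimWeil := by
  open Pool.Agent.Work.MP_e0aece_nt.Sq in
  exact claimWeil claimW1 (claimW4 claimW2 claimW3) claimW5
    (claimW10 (claimW9 (claimW7 claimW6) claimW8))

/-- parity (mod 2) of the number of shifts in `L` congruent to `x` -/
def cc (p : ℕ) (L : List ℤ) (x : ZMod p) : ZMod 2 :=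
  (L.map fun a : ℤ => if (a : ZMod p) = x then (1 : ZMod 2) else 0).sum

theorem cc_append (p : ℕ) (L L' : List ℤ) (x : ZMod p) :
    cc p (L ++ L') x = cc p L x + cc p L' x := by
  unfold cc
  rw [List.map_append, List.sum_append]

theorem cc_shift (p : ℕ) (L : List ℤ) (c : ℤ) (x : ZMod p) :
    cc p (L.map (· + c)) x = cc p L (x - c) := by
  unfold cc
  rw [List.map_map]
  congr 1
  apply List.map_congr_left
  intro a _
  simp only [Function.comp_apply, Int.cast_add, eq_sub_iff_add_eq]

/-- degenerate lists of shifts -/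
def dg (p : ℕ) (L : List ℤ) : Prop := ∀ x y : ZMod p, cc p L x = cc p L y

/-- differencing by a shift which is a unit mod `p` preserves nondegeneracy -/
theorem not_dg_shift (p : ℕ) [Fact p.Prime] (hp2 : p ≠ 2) (L : List ℤ) (hL : ¬ dg p L) (c : ℤ)
    (hc : (c : ZMod p) ≠ 0) : ¬ dg p (L ++ L.map (· + c)) := by
  intro h
  have h1 : ∀ x : ZMod p, cc p L x + cc p L (x - c) = cc p L 0 + cc p L (0 - c) := by
    intro x
    have := h x 0
    rwa [cc_append, cc_append, cc_shift, cc_shift] at this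
  obtain ⟨e, he⟩ : ∃ e : ZMod 2, e = cc p L 0 + cc p L (0 - c) := ⟨_, rfl⟩
  rw [← he] at h1
  have h2 : ∑ x : ZMod p, (cc p L x + cc p L (x - c)) = 0 := by
    have h3 : ∑ x : ZMod p, cc p L (x - c) = ∑ x : ZMod p, cc p L x :=
      (Equiv.subRight (c : ZMod p)).sum_comp (cc p L)
    rw [Finset.sum_add_distrib, h3]
    exact CharTwo.add_self_eq_zero _
  rw [Finset.sum_congr rfl fun x _ => h1 x] at h2
  rw [Finset.sum_const, Finset.card_univ, ZMod.card, nsmul_eq_mul] at h2
  have hodd : ((p : ℕ) : ZMod 2) = 1 := by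
    have := (Fact.out : p.Prime).odd_of_ne_two hp2
    exact (ZMod.natCast_eq_one_iff_odd).2 this
  rw [hodd, one_mul] at h2
  rw [h2] at h1
  have h3 : ∀ x : ZMod p, cc p L (x - c) = cc p L x := by
    intro x
    have := h1 x
    exact ((CharTwo.add_eq_zero).1 this).symm
  apply hL
  have h4 : ∀ (n : ℕ) (x : ZMod p), cc p L (x - n * c) = cc p L x := by
    intro n
    induction n with
    | zero => intro x; simp
    | succ n ih =>
      intro x
      have : x - ((n + 1 : ℕ) : ZMod p) * c = (x - c) - n * c := by push_cast; ring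
      rw [this, ih, h3]
  intro x y
  have h5 := h4 ((x - y) * (c : ZMod p)⁻¹).val x
  rw [ZMod.natCast_val, ZMod.cast_id', id, mul_assoc, inv_mul_cancel₀ hc, mul_one,
    sub_sub_cancel] at h5
  exact h5.symm

theorem not_dg_zero (p : ℕ) [Fact p.Prime] : ¬ dg p [0] := by
  intro h
  have h1 := h 0 1
  unfold cc at h1
  simp at h1

end Pool.Agent.Work.MP_e0c7e8_nt.Sm
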